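import Pool.Agent.TH597.JC.Two

set_option autoImplicit false

open Module Metric Set Polynomial

namespace Pool.Agent.TH597.JC

variable {A : Type*} [CStarAlgebra A] {J : Submodule ℂ A}

lemma odd_pow_mem (h : JCAlg J) {x : A} (hx : x ∈ J) (k : ℕ) : x * (star x * x) ^ k ∈ J := by
  induction k with
  | zero => simpa using hx
  | succ k ih =>
    have h1 := h.triple hx (h.star _ ih)
    have h2 : star ((star x * x) ^ k) = (star x * x) ^ k := by
      rw [star_pow, star_mul, star_star]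
    have : x * star (x * (star x * x) ^ k) * x = x * (star x * x) ^ (k + 1) := by
      rw [star_mul, h2, pow_succ]
      noncomm_ring
    rwa [this] at h1

lemma odd_aeval_mem (h : JCAlg J) {x : A} (hx : x ∈ J) (p : ℂ[X]) :
    x * Polynomial.aeval (star x * x) p ∈ J := by
  rw [aeval_eq_sum_range, Finset.mul_sum]
  refine J.sum_mem fun i _ => ?_
  rw [mul_smul_comm]
  exact J.smul_mem _ (odd_pow_mem h hx i)

section fd

variable [FiniteDimensional ℂ J]

/-- For invertible `x ∈ J` the positive element `x* x` has finite spectrum. -/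
lemma finite_spectrum_of_unit [Nontrivial A] (h : JCAlg J) {x : A} (hx : x ∈ J) (hu : IsUnit x) :
    (spectrum ℂ (star x * x)).Finite := by
  let L : ℂ[X] →ₗ[ℂ] A :=
    (LinearMap.mulLeft ℂ x).comp (Polynomial.aeval (star x * x)).toLinearMap
  obtain ⟨p, hp0, -, hp⟩ := exists_poly (J := J) L (fun p => odd_aeval_mem h hx p)
  have h1 : x * Polynomial.aeval (star x * x) p = 0 := hp
  have h2 : Polynomial.aeval (star x * x) p = 0 := (hu.mul_right_eq_zero).1 h1
  refine (p.roots.toFinset.finite_toSet).subset ?_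
  intro z hz
  have h3 := spectrum.subset_polynomial_aeval (star x * x) p ⟨z, hz, rfl⟩
  rw [h2, spectrum.zero_eq] at h3
  have h4 : p.eval z = 0 := h3
  simp [hp0, h4]

/-- Invertible elements of the unit ball of `J` are close to the half of a unitary element. -/
lemma half_of_unit [Nontrivial A] (h : JCAlg J) {x : A} (hx : x ∈ J) (hu : IsUnit x)
    (hx1 : ‖x‖ ≤ 1) : ∃ u ∈ Un J, ‖x - (1 / 2 : ℂ) • u‖ ≤ 1 / 2 := by
  set a := star x * x with ha
  have hfin := finite_spectrum_of_unit h hx hu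
  have hsa : IsSelfAdjoint a := IsSelfAdjoint.star_mul_self x
  have hn : IsStarNormal a := hsa.isStarNormal
  have hau : IsUnit a := hu.star.mul hu
  have hspec : ∀ z ∈ spectrum ℂ a, z = (z.re : ℂ) ∧ 0 < z.re ∧ z.re ≤ 1 := by
    intro z hz
    have h1 := hsa.mem_spectrum_eq_re hz
    have h2 : z.re ∈ spectrum ℝ a := by
      rw [← spectrum.algebraMap_mem_iff ℂ]
      have : (algebraMap ℝ ℂ) z.re = z := h1.symm
      rwa [this]
    have h3 : z ≠ 0 := by
      rintro rfl
      exact (spectrum.zero_notMem_iff ℂ).2 hau hz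
    have h4 : ‖z‖ ≤ 1 := by
      refine (spectrum.norm_le_norm_of_mem hz).trans ?_
      rw [ha, CStarRing.norm_star_mul_self]
      nlinarith [norm_nonneg x]
    refine ⟨h1, ?_, (Complex.re_le_norm z).trans h4⟩
    have h5 : 0 ≤ z.re := spectrum_star_mul_self_nonneg _ h2
    rcases lt_or_eq_of_le h5 with h6 | h6
    · exact h6
    · exfalso
      rw [← h6] at h1
      exact h3 (by simpa using h1)
  set f : ℂ → ℂ := fun z => ((√z.re)⁻¹ : ℝ) with hf
  obtain ⟨q, -, hq⟩ := cfc_eq_aeval hn hfin f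
  set g := cfc f a with hg
  have hgsa : star g = g := by
    rw [hg, ← cfc_star]
    refine cfc_congr fun z _ => ?_
    rw [hf]
    exact Complex.conj_ofReal _
  -- `g a g = 1`
  have hgag : g * a * g = 1 := by
    have e2 : g * a = cfc (fun z : ℂ => f z * z) a := by
      rw [cfc_mul f (fun z => z) a (cont_of_finite hfin _) (cont_of_finite hfin _), cfc_id' ℂ a]
    rw [e2, hg, ← cfc_mul _ _ _ (cont_of_finite hfin _) (cont_of_finite hfin _)]
    have e3 : cfc (fun z : ℂ => f z * z * f z) a = cfc (fun _ : ℂ => (1 : ℂ)) a := by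
      refine cfc_congr fun z hz => ?_
      obtain ⟨h1, h2, h3⟩ := hspec z hz
      have h4 : (0 : ℝ) < √z.re := Real.sqrt_pos.2 h2
      have h5 : √z.re * √z.re = z.re := Real.mul_self_sqrt h2.le
      simp only [hf]
      have : (((√z.re)⁻¹ : ℝ) : ℂ) * z * (((√z.re)⁻¹ : ℝ) : ℂ) =
          (((√z.re)⁻¹ * z.re * (√z.re)⁻¹ : ℝ) : ℂ) := by
        conv_lhs => rw [h1]
        push_cast
        simp
      rw [this]
      have h6 : (√z.re)⁻¹ * z.re * (√z.re)⁻¹ = 1 := by
        field_simp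
        exact (Real.sq_sqrt h2.le).symm
      rw [h6, Complex.ofReal_one]
    rw [e3, cfc_const_one ℂ a]
  set u := x * g with hudef
  have huJ : u ∈ J := by
    rw [hudef, hq]
    exact odd_aeval_mem h hx q
  have hsu : star u * u = 1 := by
    rw [hudef, star_mul, hgsa]
    calc g * star x * (x * g) = g * (star x * x) * g := by noncomm_ring
      _ = 1 := hgag
  have hgu : IsUnit g := by
    have h1 : g * (a * g) = 1 := by rw [← mul_assoc]; exact hgag
    have h2 : (g * a) * g = 1 := hgag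
    have h3 : a * g = g * a := by
      have e1 : a * g = Polynomial.aeval a (X * q) := by rw [map_mul, aeval_X, ← hq]
      have e2 : g * a = Polynomial.aeval a (q * X) := by rw [map_mul, aeval_X, ← hq]
      rw [e1, e2, mul_comm]
    exact ⟨⟨g, a * g, h1, by rw [h3]; exact h2⟩, rfl⟩
  have huu : IsUnit u := hu.mul hgu
  have hus : u * star u = 1 := by
    obtain ⟨w, hw⟩ := huu
    have h1 : star u = ((w⁻¹ : Aˣ) : A) := by
      have : star u * (w : A) = 1 := by rw [hw]; exact hsu
      calc star u = star u * ((w : A) * ((w⁻¹ : Aˣ) : A)) := by rw [Units.mul_inv, mul_one]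
        _ = ((w⁻¹ : Aˣ) : A) := by rw [← mul_assoc, this, one_mul]
    rw [h1, ← hw]
    exact w.mul_inv
  have huU : u ∈ Un J := ⟨huJ, (Unitary.mem_iff).2 ⟨hsu, hus⟩⟩
  refine ⟨u, huU, ?_⟩
  -- `x = u |x|`
  set b := cfc (fun z : ℂ => ((√z.re : ℝ) : ℂ)) a with hb
  have hgb : g * b = 1 := by
    rw [hg, hb, ← cfc_mul _ _ _ (cont_of_finite hfin _) (cont_of_finite hfin _)]
    have e3 : cfc (fun z : ℂ => f z * ((√z.re : ℝ) : ℂ)) a = cfc (fun _ : ℂ => (1 : ℂ)) a := by
      refine cfc_congr fun z hz => ?_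
      obtain ⟨h1, h2, h3⟩ := hspec z hz
      have h4 : (0 : ℝ) < √z.re := Real.sqrt_pos.2 h2
      simp only [hf]
      rw [← Complex.ofReal_mul, inv_mul_cancel₀ h4.ne', Complex.ofReal_one]
    rw [e3, cfc_const_one ℂ a]
  have hxb : x = u * b := by
    rw [hudef, mul_assoc, hgb, mul_one]
  have e1 : x - (1 / 2 : ℂ) • u = u * (b - (1 / 2 : ℂ) • 1) := by
    rw [mul_sub, ← hxb, mul_smul_comm, mul_one]
  rw [e1, CStarRing.norm_mem_unitary_mul _ huU.2]
  have e2 : b - (1 / 2 : ℂ) • (1 : A) = cfc (fun z : ℂ => ((√z.re : ℝ) : ℂ) - 1 / 2) a := by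
    rw [cfc_sub _ (fun _ => (1 / 2 : ℂ)) a (cont_of_finite hfin _) (cont_of_finite hfin _),
      cfc_const (1 / 2 : ℂ) a, Algebra.algebraMap_eq_smul_one]
  rw [e2]
  refine (norm_cfc_le_iff _ a (by norm_num) (cont_of_finite hfin _)).2 ?_
  intro z hz
  obtain ⟨h1, h2, h3⟩ := hspec z hz
  have h4 : √z.re ≤ 1 := Real.sqrt_le_iff.2 ⟨by norm_num, by simpa using h3⟩
  have h5 : 0 ≤ √z.re := Real.sqrt_nonneg _
  have : ((√z.re : ℝ) : ℂ) - 1 / 2 = ((√z.re - 1 / 2 : ℝ) : ℂ) := by push_cast; ring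
  rw [this, Complex.norm_real, Real.norm_eq_abs, abs_le]
  constructor <;> linarith

end fd

end Pool.Agent.TH597.JC
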