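import Mathlib

/-!
# Unital JC*-algebras of finite dimension: closure properties and functional calculus
-/

set_option autoImplicit false

open Polynomial Module

namespace Pool.Agent.TH597.JC

variable {A : Type*} [CStarAlgebra A]

/-- `J` is a unital JC*-algebra: a complex subspace which contains the unit and is closed under
the involution and under squares. -/
structure JCAlg (J : Submodule ℂ A) : Prop where
  one : (1 : A) ∈ J
  star : ∀ x ∈ J, star x ∈ J
  sq : ∀ x ∈ J, x * x ∈ J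

variable {J : Submodule ℂ A}

lemma JCAlg.jmul (h : JCAlg J) {x y : A} (hx : x ∈ J) (hy : y ∈ J) : x * y + y * x ∈ J := by
  have h1 := h.sq _ (J.add_mem hx hy)
  have h2 := J.sub_mem (J.sub_mem h1 (h.sq _ hx)) (h.sq _ hy)
  have : (x + y) * (x + y) - x * x - y * y = x * y + y * x := by noncomm_ring
  rwa [this] at h2

lemma JCAlg.mul_of_commute (h : JCAlg J) {x y : A} (hx : x ∈ J) (hy : y ∈ J)
    (hc : x * y = y * x) : x * y ∈ J := by
  have h1 := J.smul_mem (1 / 2 : ℂ) (h.jmul hx hy)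
  rw [← hc, ← two_smul ℂ (x * y), smul_smul] at h1
  norm_num at h1
  exact h1

lemma JCAlg.pow (h : JCAlg J) {x : A} (hx : x ∈ J) (n : ℕ) : x ^ n ∈ J := by
  induction n with
  | zero => simpa using h.one
  | succ n ih =>
    rw [pow_succ]
    refine h.mul_of_commute ih hx ?_
    rw [← pow_succ, ← pow_succ']

lemma JCAlg.triple (h : JCAlg J) {w x : A} (hw : w ∈ J) (hx : x ∈ J) : w * x * w ∈ J := by
  have h1 := h.jmul hw hx
  have h2 := h.jmul hw h1
  have h3 := h.jmul (h.sq _ hw) hx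
  have h4 := J.smul_mem (1 / 2 : ℂ) (J.sub_mem h2 h3)
  have : w * (w * x + x * w) + (w * x + x * w) * w - (w * w * x + x * (w * w)) =
      (2 : ℂ) • (w * x * w) := by
    rw [two_smul]; noncomm_ring
  rw [this, smul_smul] at h4
  norm_num at h4
  exact h4

lemma JCAlg.aeval (h : JCAlg J) {x : A} (hx : x ∈ J) (p : ℂ[X]) : aeval x p ∈ J := by
  rw [aeval_eq_sum_range]
  exact J.sum_mem fun i _ => J.smul_mem _ (h.pow hx i)

section fd

variable [FiniteDimensional ℂ J]

lemma exists_poly (L : ℂ[X] →ₗ[ℂ] A) (hL : ∀ p, L p ∈ J) :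
    ∃ p : ℂ[X], p ≠ 0 ∧ p.natDegree ≤ finrank ℂ J ∧ L p = 0 := by
  set N := finrank ℂ J
  let M : Polynomial.degreeLT ℂ (N + 1) →ₗ[ℂ] J :=
    (L.comp (Polynomial.degreeLT ℂ (N + 1)).subtype).codRestrict J (fun p => hL _)
  have hfin : finrank ℂ (Polynomial.degreeLT ℂ (N + 1)) = N + 1 := by
    rw [(Polynomial.degreeLTEquiv ℂ (N + 1)).finrank_eq]
    simp
  have hfd : FiniteDimensional ℂ (Polynomial.degreeLT ℂ (N + 1)) :=
    (Polynomial.degreeLTEquiv ℂ (N + 1)).symm.finiteDimensional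
  have hker : LinearMap.ker M ≠ ⊥ := by
    apply LinearMap.ker_ne_bot_of_finrank_lt
    rw [hfin]
    omega
  obtain ⟨p, hp, hp0⟩ := Submodule.exists_mem_ne_zero_of_ne_bot hker
  refine ⟨p, fun h => hp0 (Subtype.ext h), ?_, ?_⟩
  · have := Polynomial.mem_degreeLT.1 p.2
    exact Nat.lt_succ_iff.1 (by
      have h0 : (p : ℂ[X]) ≠ 0 := fun h => hp0 (Subtype.ext h)
      exact (Polynomial.natDegree_lt_iff_degree_lt h0).2 this)
  · have h1 : M p = 0 := hp
    exact congrArg Subtype.val h1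

lemma spectrum_bound [Nontrivial A] (h : JCAlg J) {x : A} (hx : x ∈ J) :
    ∃ S : Finset ℂ, spectrum ℂ x ⊆ S ∧ S.card ≤ finrank ℂ J := by
  obtain ⟨p, hp0, hpd, hp⟩ := exists_poly (J := J)
    ((Polynomial.aeval x).toLinearMap) (fun p => h.aeval hx p)
  refine ⟨p.roots.toFinset, ?_, ?_⟩
  · intro z hz
    have h1 := spectrum.subset_polynomial_aeval x p ⟨z, hz, rfl⟩
    have h2 : (Polynomial.aeval x) p = 0 := hp
    rw [h2, spectrum.zero_eq] at h1
    have h3 : p.eval z = 0 := h1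
    simp [hp0, h3]
  · exact (Multiset.toFinset_card_le _).trans ((Polynomial.card_roots' p).trans hpd)

lemma finite_spectrum [Nontrivial A] (h : JCAlg J) {x : A} (hx : x ∈ J) :
    (spectrum ℂ x).Finite := by
  obtain ⟨S, hS, -⟩ := spectrum_bound h hx
  exact S.finite_toSet.subset hS

end fd

lemma cont_of_finite {x : A} (hf : (spectrum ℂ x).Finite) (f : ℂ → ℂ) :
    ContinuousOn f (spectrum ℂ x) := hf.continuousOn f

/-- The functional calculus of an element with finite spectrum is polynomial. -/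
lemma cfc_eq_aeval {x : A} (hn : IsStarNormal x) (hf : (spectrum ℂ x).Finite) (f : ℂ → ℂ) :
    ∃ q : ℂ[X], (∀ z ∈ spectrum ℂ x, q.eval z = f z) ∧ cfc f x = aeval x q := by
  classical
  refine ⟨Lagrange.interpolate hf.toFinset id f, ?_, ?_⟩
  · intro z hz
    exact Lagrange.eval_interpolate_at_node f (Set.injOn_id _) (hf.mem_toFinset.2 hz)
  · rw [← cfc_polynomial (R := ℂ) (p := IsStarNormal) _ x]
    refine cfc_congr fun z hz => ?_
    exact (Lagrange.eval_interpolate_at_node f (Set.injOn_id _) (hf.mem_toFinset.2 hz)).symm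

lemma JCAlg.cfc_mem (h : JCAlg J) {x : A} (hx : x ∈ J) (hn : IsStarNormal x)
    (hf : (spectrum ℂ x).Finite) (f : ℂ → ℂ) : cfc f x ∈ J := by
  obtain ⟨q, -, hq⟩ := cfc_eq_aeval hn hf f
  rw [hq]
  exact h.aeval hx q

end Pool.Agent.TH597.JC
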