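import Pool.Agent.TH597.JC.Ball

set_option autoImplicit false

open Module Metric Set Polynomial

namespace Pool.Agent.TH597.JC

variable {A : Type*} [CStarAlgebra A] {J : Submodule ℂ A}

section fd

variable [FiniteDimensional ℂ J]

/-- Arbitrarily small positive scalars make `x` invertible. -/
lemma exists_unit_near [Nontrivial A] (h : JCAlg J) {x : A} (hx : x ∈ J) {δ : ℝ} (hδ : 0 < δ) :
    ∃ ε : ℝ, 0 < ε ∧ ε < δ ∧ IsUnit (x + ((ε : ℝ) : ℂ) • (1 : A)) := by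
  have hfin := finite_spectrum h hx
  have h1 : ((fun ε : ℝ => (-(ε : ℂ))) ⁻¹' (spectrum ℂ x)).Finite := by
    refine hfin.preimage ?_
    intro a _ b _ hab
    simpa using hab
  have h2 : (Ioo 0 δ \ ((fun ε : ℝ => (-(ε : ℂ))) ⁻¹' (spectrum ℂ x))).Nonempty :=
    ((Ioo_infinite hδ).sdiff h1).nonempty
  obtain ⟨ε, ⟨h3, h4⟩, h5⟩ := h2
  refine ⟨ε, h3, h4, ?_⟩
  have h6 : -(ε : ℂ) ∉ spectrum ℂ x := h5
  rw [spectrum.notMem_iff] at h6
  have h7 : algebraMap ℂ A (-(ε : ℂ)) - x = -(x + ((ε : ℝ) : ℂ) • (1 : A)) := by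
    rw [Algebra.algebraMap_eq_smul_one, neg_smul]; abel
  rw [h7] at h6
  exact (IsUnit.neg_iff _).1 h6

/-- Every element of the unit ball of `J` is within `1/2` of half a unitary element of `J`. -/
lemma half_close [Nontrivial A] (h : JCAlg J) {x : A} (hx : x ∈ J) (hx1 : ‖x‖ ≤ 1) :
    ∃ u ∈ Un J, ‖x - (1 / 2 : ℂ) • u‖ ≤ 1 / 2 := by
  have hcont : ContinuousOn (fun u : A => ‖x - (1 / 2 : ℂ) • u‖) (Un J) := by
    apply Continuous.continuousOn
    fun_prop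
  obtain ⟨u, hu, hmin⟩ := (isCompact_Un (J := J)).exists_isMinOn ⟨1, Un.one h⟩ hcont
  refine ⟨u, hu, ?_⟩
  refine le_of_forall_pos_le_add fun δ hδ => ?_
  obtain ⟨ε, h1, h2, h3⟩ := exists_unit_near h hx (show 0 < min (δ / 2) 1 by positivity)
  have hε : ε < δ / 2 := lt_of_lt_of_le h2 (min_le_left _ _)
  set c : ℝ := (1 + ε)⁻¹ with hc
  have hc0 : 0 < c := by rw [hc]; positivity
  have hc1 : c * (1 + ε) = 1 := by rw [hc]; field_simp
  set y : A := ((c : ℝ) : ℂ) • (x + ((ε : ℝ) : ℂ) • (1 : A)) with hy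
  have hxe : x + ((ε : ℝ) : ℂ) • (1 : A) ∈ J := J.add_mem hx (J.smul_mem _ h.one)
  have hyJ : y ∈ J := J.smul_mem _ hxe
  have hnorm : ‖x + ((ε : ℝ) : ℂ) • (1 : A)‖ ≤ 1 + ε := by
    refine (norm_add_le _ _).trans ?_
    rw [norm_smul, Complex.norm_real, Real.norm_eq_abs, abs_of_pos h1, norm_one]
    linarith
  have hy1 : ‖y‖ ≤ 1 := by
    rw [hy, norm_smul, Complex.norm_real, Real.norm_eq_abs, abs_of_pos hc0, ← hc1]
    gcongr
  have hyu : IsUnit y := by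
    rw [hy]
    have hcu : IsUnit ((c : ℝ) : ℂ) := by
      rw [isUnit_iff_ne_zero]
      exact_mod_cast hc0.ne'
    have := (hcu.map (algebraMap ℂ A)).mul h3
    rwa [← Algebra.smul_def] at this
  obtain ⟨v, hv, hvy⟩ := half_of_unit h hyJ hyu hy1
  have h4 : ‖x - (1 / 2 : ℂ) • u‖ ≤ ‖x - (1 / 2 : ℂ) • v‖ := hmin hv
  have h5 : ‖x - y‖ ≤ 2 * ε := by
    have e : x - y = (((1 - c : ℝ)) : ℂ) • (x + ((ε : ℝ) : ℂ) • (1 : A)) - ((ε : ℝ) : ℂ) • (1 : A) := by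
      rw [hy]
      push_cast
      rw [sub_smul, one_smul]
      abel
    rw [e]
    refine (norm_sub_le _ _).trans ?_
    rw [norm_smul, norm_smul, Complex.norm_real, Complex.norm_real, Real.norm_eq_abs,
      Real.norm_eq_abs, abs_of_pos h1, norm_one]
    have hc2 : c ≤ 1 := by
      rw [hc]
      exact inv_le_one_of_one_le₀ (by linarith)
    rw [abs_of_nonneg (by linarith)]
    have : (1 - c) * ‖x + ((ε : ℝ) : ℂ) • (1 : A)‖ ≤ (1 - c) * (1 + ε) := by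
      have h0 : 0 ≤ 1 - c := by linarith
      gcongr
    nlinarith
  have h6 : ‖x - (1 / 2 : ℂ) • v‖ ≤ ‖x - y‖ + ‖y - (1 / 2 : ℂ) • v‖ := by
    have e : x - (1 / 2 : ℂ) • v = (x - y) + (y - (1 / 2 : ℂ) • v) := by abel
    rw [e]
    exact norm_add_le _ _
  linarith

omit [FiniteDimensional ℂ J] in
lemma norm_sub_smul_sq {u v : A} (hu : u ∈ Un J) (hv : v ∈ Un J) {c : ℝ} (hc : 0 ≤ c) :
    ‖v - ((c : ℝ) : ℂ) • u‖ ^ 2 ≤ (1 - c) ^ 2 * ‖(1 : A)‖ + c * ‖v - u‖ ^ 2 := by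
  have e : star (v - ((c : ℝ) : ℂ) • u) * (v - ((c : ℝ) : ℂ) • u) =
      (((1 - c) ^ 2 : ℝ) : ℂ) • (1 : A) + ((c : ℝ) : ℂ) • (star (v - u) * (v - u)) := by
    have h1 := Un.star_mul hu
    have h2 := Un.star_mul hv
    have hs : star (((c : ℝ) : ℂ) • u) = ((c : ℝ) : ℂ) • star u := by
      rw [star_smul]
      congr 1
      exact Complex.conj_ofReal c
    rw [star_sub, star_sub, hs]
    have e1 : (star v - ((c : ℝ) : ℂ) • star u) * (v - ((c : ℝ) : ℂ) • u) =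
        star v * v - ((c : ℝ) : ℂ) • (star v * u) - ((c : ℝ) : ℂ) • (star u * v) +
          (((c : ℝ) : ℂ) * ((c : ℝ) : ℂ)) • (star u * u) := by
      rw [sub_mul, mul_sub, mul_sub, mul_smul_comm, smul_mul_assoc, smul_mul_smul_comm]
      abel
    have e2 : (star v - star u) * (v - u) =
        star v * v - star v * u - star u * v + star u * u := by noncomm_ring
    rw [e1, e2, h1, h2]
    push_cast
    module
  rw [← sq_abs, abs_of_nonneg (norm_nonneg _), pow_two, ← CStarRing.norm_star_mul_self, e, pow_two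
    ‖v - u‖, ← CStarRing.norm_star_mul_self]
  refine (norm_add_le _ _).trans ?_
  rw [norm_smul, norm_smul, Complex.norm_real, Complex.norm_real, Real.norm_eq_abs,
    Real.norm_eq_abs, abs_of_nonneg hc, abs_of_nonneg (sq_nonneg _)]

/-- From coverings of the unitary elements to coverings of the unit ball by smaller balls. -/
theorem cover_ball [Nontrivial A] (h : JCAlg J) (T : Finset A) (hT : ∀ u ∈ T, u ∈ Un J)
    (hcov : ∀ v ∈ Un J, ∃ u ∈ T, dist v u < √2) :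
    ∃ (T' : Finset A) (lam : ℝ), 0 < lam ∧ lam < 1 ∧ (∀ t ∈ T', t ∈ J) ∧ T'.card ≤ T.card ∧
      ∀ x ∈ J, ‖x‖ ≤ 1 → ∃ t ∈ T', ‖x - t‖ ≤ lam := by
  classical
  have hTne : (T : Set A).Nonempty := by
    obtain ⟨u, hu, -⟩ := hcov 1 (Un.one h)
    exact ⟨u, hu⟩
  obtain ⟨v0, hv0, hmax⟩ := (isCompact_Un (J := J)).exists_isMaxOn ⟨1, Un.one h⟩
    (continuous_infDist_pt (T : Set A)).continuousOn
  set η := infDist v0 (T : Set A) with hη
  have hη0 : 0 ≤ η := infDist_nonneg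
  have hη2 : η < √2 := by
    obtain ⟨u, hu, hd⟩ := hcov v0 hv0
    exact (infDist_le_dist_of_mem (s := (T : Set A)) hu).trans_lt hd
  have hη3 : η ^ 2 < 2 := by
    have := Real.lt_sqrt hη0 (y := 2)
    exact this.1 hη2
  set c : ℝ := (2 - η ^ 2) / 2 with hc
  have hc0 : 0 < c := by rw [hc]; linarith
  have hc1 : c ≤ 1 := by rw [hc]; nlinarith
  have hclose : ∀ v ∈ Un J, ∃ u ∈ T, ‖v - ((c : ℝ) : ℂ) • u‖ ≤ √(1 - c ^ 2) := by
    intro v hv
    obtain ⟨u, hu, hd⟩ := (T.finite_toSet.isCompact).exists_infDist_eq_dist hTne v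
    refine ⟨u, hu, ?_⟩
    have h1 : dist v u ≤ η := by
      rw [← hd]
      exact hmax hv
    rw [dist_eq_norm] at h1
    apply Real.le_sqrt_of_sq_le
    refine (norm_sub_smul_sq (hT u hu) hv hc0.le).trans ?_
    rw [norm_one, mul_one]
    have h2 : ‖v - u‖ ^ 2 ≤ η ^ 2 := by gcongr
    have h3 : η ^ 2 = 2 - 2 * c := by rw [hc]; ring
    nlinarith
  have hs1 : √(1 - c ^ 2) < 1 := by
    rw [Real.sqrt_lt' one_pos]
    nlinarith
  have hs0 : 0 ≤ √(1 - c ^ 2) := Real.sqrt_nonneg _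
  refine ⟨T.image (fun u => (((c / 2 : ℝ)) : ℂ) • u), 1 / 2 + √(1 - c ^ 2) / 2, by linarith,
    by linarith, ?_, Finset.card_image_le, ?_⟩
  · intro t ht
    obtain ⟨u, hu, rfl⟩ := Finset.mem_image.1 ht
    exact J.smul_mem _ (hT u hu).1
  · intro x hx hx1
    obtain ⟨v, hv, hxv⟩ := half_close h hx hx1
    obtain ⟨u, hu, hvu⟩ := hclose v hv
    refine ⟨_, Finset.mem_image_of_mem _ hu, ?_⟩
    have e : x - (((c / 2 : ℝ)) : ℂ) • u =
        (x - (1 / 2 : ℂ) • v) + (1 / 2 : ℂ) • (v - ((c : ℝ) : ℂ) • u) := by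
      push_cast
      module
    rw [e]
    refine (norm_add_le _ _).trans ?_
    rw [norm_smul (1 / 2 : ℂ) (v - _)]
    have : ‖(1 / 2 : ℂ)‖ = 1 / 2 := by simp
    rw [this]
    linarith

end fd

end Pool.Agent.TH597.JC
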