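import Pool.Agent.TH597.JC.Pack

set_option autoImplicit false

open Module MeasureTheory Metric Set
open scoped ENNReal NNReal

namespace Pool.Agent.TH597.JC

variable {A : Type*} [CStarAlgebra A] {J : Submodule ℂ A}

section fd

variable [FiniteDimensional ℂ J]

section ms

variable [MeasurableSpace A] [BorelSpace A]

/-- One greedy step. -/
lemma greedy_step [Nontrivial A] (h : JCAlg J) {r : ℝ} {a b : ℕ} (hb : 0 < b)
    (hab : (b : ℝ≥0∞) * hm J (Un J) ≤ (a : ℝ≥0∞) * hm J (cap J 1 1 r))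
    (R : Finset A) (hR : ∀ m ∈ R, m ∈ Un J) (hRne : R.Nonempty) :
    ∃ t ∈ Un J, b * R.card ≤ a * (R.filter fun m => ‖t - m‖ < r).card := by
  classical
  by_contra hcon
  push Not at hcon
  have hpt : ∀ t, (a : ℝ≥0∞) * ∑ m ∈ R, (cap J m 1 r).indicator (fun _ => (1 : ℝ≥0∞)) t ≤
      (Un J).indicator (fun _ => ((b * R.card - 1 : ℕ) : ℝ≥0∞)) t := by
    intro t
    by_cases ht : t ∈ Un J
    · rw [indicator_of_mem ht]
      have h4 : ∑ m ∈ R, (cap J m 1 r).indicator (fun _ => (1 : ℝ≥0∞)) t =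
          ((R.filter fun m => ‖t - m‖ < r).card : ℝ≥0∞) := by
        rw [Finset.card_filter]
        push_cast
        refine Finset.sum_congr rfl fun m _ => ?_
        by_cases hm1 : ‖t - m‖ < r
        · rw [if_pos hm1, indicator_of_mem]
          exact ⟨ht, by rwa [one_smul]⟩
        · rw [if_neg hm1, indicator_of_notMem]
          rintro ⟨-, h5⟩
          rw [one_smul] at h5
          exact hm1 h5
      rw [h4]
      have h6 := hcon t ht
      have h7 : a * (R.filter fun m => ‖t - m‖ < r).card ≤ b * R.card - 1 := by omega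
      exact_mod_cast h7
    · have : ∑ m ∈ R, (cap J m 1 r).indicator (fun _ => (1 : ℝ≥0∞)) t = 0 := by
        refine Finset.sum_eq_zero fun m _ => ?_
        rw [indicator_of_notMem]
        exact fun hj => ht hj.1
      rw [this, mul_zero]
      exact zero_le
  have hint := lintegral_mono (μ := hm J) hpt
  rw [lintegral_indicator_const (isCompact_Un (J := J)).isClosed.measurableSet,
    lintegral_const_mul _ (Finset.measurable_sum _ (fun m _ =>
      measurable_const.indicator (measurableSet_cap m 1 r))),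
    lintegral_finsetSum _ (fun m _ => measurable_const.indicator (measurableSet_cap m 1 r))] at hint
  have h2 : ∑ m ∈ R, ∫⁻ t, (cap J m 1 r).indicator (fun _ => (1 : ℝ≥0∞)) t ∂(hm J) =
      (R.card : ℝ≥0∞) * hm J (cap J 1 1 r) := by
    rw [Finset.sum_congr rfl (g := fun _ => hm J (cap J 1 1 r))]
    · simp
    · intro m hmR
      rw [lintegral_indicator_const (measurableSet_cap m 1 r), one_mul, hm_cap h (hR m hmR)]
  rw [h2] at hint
  have h3 : ((b * R.card : ℕ) : ℝ≥0∞) * hm J (Un J) ≤ ((b * R.card - 1 : ℕ) : ℝ≥0∞) * hm J (Un J) := by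
    refine le_trans ?_ hint
    have : (a : ℝ≥0∞) * ((R.card : ℝ≥0∞) * hm J (cap J 1 1 r)) =
        (R.card : ℝ≥0∞) * ((a : ℝ≥0∞) * hm J (cap J 1 1 r)) := by ring
    rw [this]
    push_cast
    have e : (b : ℝ≥0∞) * (R.card : ℝ≥0∞) * hm J (Un J) =
        (R.card : ℝ≥0∞) * ((b : ℝ≥0∞) * hm J (Un J)) := by ring
    rw [e]
    gcongr
  rw [ENNReal.mul_le_mul_iff_left (hm_Un_pos h).ne' (hm_Un_lt_top h).ne] at h3
  have h4 := Nat.cast_le.1 h3
  have h5 : 0 < b * R.card := Nat.mul_pos hb (Finset.card_pos.2 hRne)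
  omega

/-- Iterating the greedy step. -/
lemma greedy [Nontrivial A] (h : JCAlg J) {r : ℝ} {a b : ℕ} (hb : 0 < b) (hba : b ≤ a)
    (hab : (b : ℝ≥0∞) * hm J (Un J) ≤ (a : ℝ≥0∞) * hm J (cap J 1 1 r))
    (R : Finset A) (hR : ∀ m ∈ R, m ∈ Un J) (k : ℕ) :
    ∃ T : Finset A, (∀ t ∈ T, t ∈ Un J) ∧ T.card ≤ k ∧
      ∃ R' : Finset A, (∀ m ∈ R', m ∈ Un J) ∧ (∀ m ∈ R, m ∈ R' ∨ ∃ t ∈ T, ‖m - t‖ < r) ∧
        (R'.card : ℝ) ≤ (1 - (b : ℝ) / a) ^ k * R.card := by
  classical
  induction k with
  | zero => exact ⟨∅, by simp, by simp, R, hR, fun m hm => Or.inl hm, by simp⟩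
  | succ k ih =>
    obtain ⟨T, hT, hTk, R', hR', hcov, hcard⟩ := ih
    have ha : (0 : ℝ) < a := by exact_mod_cast lt_of_lt_of_le hb hba
    have hba' : (b : ℝ) / a ≤ 1 := by
      rw [div_le_one ha]
      exact_mod_cast hba
    rcases R'.eq_empty_or_nonempty with h0 | hne
    · refine ⟨T, hT, hTk.trans (Nat.le_succ k), R', hR', hcov, ?_⟩
      rw [h0]
      have : 0 ≤ 1 - (b : ℝ) / a := by linarith
      simp only [Finset.card_empty, Nat.cast_zero]
      positivity
    · obtain ⟨t, ht, htc⟩ := greedy_step h hb hab R' hR' hne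
      refine ⟨insert t T, ?_, (Finset.card_insert_le _ _).trans (by omega),
        R'.filter (fun m => ¬ ‖t - m‖ < r), fun m hm => hR' m (Finset.mem_filter.1 hm).1, ?_, ?_⟩
      · intro s hs
        rcases Finset.mem_insert.1 hs with rfl | hs
        · exact ht
        · exact hT s hs
      · intro m hm
        rcases hcov m hm with h1 | ⟨s, hs, hms⟩
        · by_cases hr : ‖t - m‖ < r
          · exact Or.inr ⟨t, Finset.mem_insert_self _ _, by rwa [norm_sub_rev]⟩
          · exact Or.inl (Finset.mem_filter.2 ⟨h1, hr⟩)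
        · exact Or.inr ⟨s, Finset.mem_insert_of_mem hs, hms⟩
      · have h1 := Finset.card_filter_add_card_filter_not (s := R') (fun m => ‖t - m‖ < r)
        have h2 : ((R'.filter fun m => ‖t - m‖ < r).card : ℝ) +
            ((R'.filter fun m => ¬ ‖t - m‖ < r).card : ℝ) = R'.card := by exact_mod_cast h1
        have h3 : (b : ℝ) * R'.card ≤ a * ((R'.filter fun m => ‖t - m‖ < r).card : ℝ) := by
          exact_mod_cast htc
        have h4 : (b : ℝ) / a * R'.card ≤ ((R'.filter fun m => ‖t - m‖ < r).card : ℝ) := by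
          rw [div_mul_eq_mul_div, div_le_iff₀ ha]
          linarith
        have h5 : ((R'.filter fun m => ¬ ‖t - m‖ < r).card : ℝ) ≤ (1 - (b : ℝ) / a) * R'.card := by
          linarith
        refine h5.trans ?_
        rw [pow_succ']
        rw [mul_assoc]
        have : 0 ≤ 1 - (b : ℝ) / a := by linarith
        gcongr

end ms

end fd

end Pool.Agent.TH597.JC
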