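import Pool.Agent.TH597.JC.Unitary

/-!
# The Hausdorff measure of the unitary elements of a JC*-algebra is finite and positive
-/

set_option autoImplicit false

open Module MeasureTheory Metric Set
open scoped ENNReal NNReal

namespace Pool.Agent.TH597.JC

variable {A : Type*} [CStarAlgebra A] {J : Submodule ℂ A}

/-- The selfadjoint part of `J`. -/
def Jsa (J : Submodule ℂ A) : Submodule ℝ A where
  carrier := {x | x ∈ J ∧ star x = x}
  add_mem' := fun {a b} ha hb => ⟨J.add_mem ha.1 hb.1, by rw [star_add, ha.2, hb.2]⟩
  zero_mem' := ⟨J.zero_mem, star_zero _⟩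
  smul_mem' := fun c x hx => ⟨by
    have := J.smul_mem (c : ℂ) hx.1
    rwa [Complex.coe_smul] at this, by rw [star_smul, hx.2, star_trivial]⟩

lemma mem_Jsa {x : A} : x ∈ Jsa J ↔ x ∈ J ∧ star x = x := Iff.rfl

/-- The imaginary part. -/
noncomputable def im (x : A) : A := (-(Complex.I / 2)) • (x - star x)

/-- The real part. -/
noncomputable def re (x : A) : A := (1 / 2 : ℂ) • (x + star x)

lemma re_add_im (x : A) : re x + Complex.I • im x = x := by
  unfold re im
  rw [smul_smul]
  have : Complex.I * -(Complex.I / 2) = 1 / 2 := by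
    linear_combination (-1 / 2) * Complex.I_mul_I
  rw [this, ← smul_add]
  have : x + star x + (x - star x) = (2 : ℂ) • x := by rw [two_smul]; abel
  rw [this, smul_smul]
  norm_num

lemma im_sub (x y : A) : im x - im y = im (x - y) := by
  unfold im
  rw [← smul_sub, star_sub]
  congr 1
  abel

lemma norm_im_le (x : A) : ‖im x‖ ≤ ‖x‖ := by
  unfold im
  rw [norm_smul]
  have h1 : ‖-(Complex.I / 2)‖ = 1 / 2 := by simp
  have h2 : ‖x - star x‖ ≤ 2 * ‖x‖ := by
    calc ‖x - star x‖ ≤ ‖x‖ + ‖star x‖ := norm_sub_le _ _
      _ = 2 * ‖x‖ := by rw [norm_star]; ring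
  rw [h1]
  linarith

lemma im_mem (h : JCAlg J) {x : A} (hx : x ∈ J) : im x ∈ Jsa J := by
  refine ⟨J.smul_mem _ (J.sub_mem hx (h.star x hx)), ?_⟩
  unfold im
  rw [star_smul, star_sub, star_star]
  have : star (-(Complex.I / 2)) = Complex.I / 2 := by simp; ring
  rw [this, ← neg_sub x, smul_neg, neg_smul]

lemma im_lipschitz : LipschitzWith 1 (im : A → A) := by
  refine LipschitzWith.of_dist_le_mul fun x y => ?_
  rw [dist_eq_norm, dist_eq_norm, im_sub, NNReal.coe_one, one_mul]
  exact norm_im_le _

section fd

variable [FiniteDimensional ℂ J]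

instance : FiniteDimensional ℝ (Jsa J) := by
  have : FiniteDimensional ℝ J := FiniteDimensional.complexToReal J
  have : FiniteDimensional ℝ (J.restrictScalars ℝ) := this
  exact Submodule.finiteDimensional_of_le (S₂ := J.restrictScalars ℝ) (fun x hx => hx.1)

lemma finrank_Jsa (h : JCAlg J) : finrank ℝ (Jsa J) = finrank ℂ J := by
  have : FiniteDimensional ℝ J := FiniteDimensional.complexToReal J
  have h2 : finrank ℝ J = 2 * finrank ℂ J := finrank_real_of_complex J
  let L : J →ₗ[ℝ] Jsa J :=
    { toFun := fun x => ⟨im (x : A), im_mem h x.2⟩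
      map_add' := fun x y => by
        ext
        change im ((x : A) + y) = im (x : A) + im (y : A)
        unfold im
        rw [← smul_add, star_add]
        congr 1
        abel
      map_smul' := fun c x => by
        ext
        change im (((c • x : J)) : A) = c • im (x : A)
        have e : ((c • x : J) : A) = c • (x : A) := rfl
        rw [e]
        unfold im
        rw [star_smul, star_trivial, ← smul_sub, smul_comm] }
  have hsurj : Function.Surjective L := by
    intro y
    refine ⟨⟨Complex.I • (y : A), J.smul_mem _ y.2.1⟩, ?_⟩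
    ext
    change im (Complex.I • (y : A)) = y
    unfold im
    rw [star_smul, y.2.2]
    have : star Complex.I = - Complex.I := by simp
    rw [this, neg_smul Complex.I (y : A), sub_neg_eq_add, ← two_smul ℂ (Complex.I • (y : A)),
      smul_smul, smul_smul]
    have : -(Complex.I / 2) * (2 * Complex.I) = 1 := by
      linear_combination (-1) * Complex.I_mul_I
    rw [← mul_assoc] at this
    rw [this, one_smul]
  have hker : finrank ℝ (LinearMap.ker L) = finrank ℝ (Jsa J) := by
    refine LinearEquiv.finrank_eq
      { toFun := fun x => ⟨((x : J) : A), (x : J).2, ?_⟩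
        map_add' := fun x y => rfl
        map_smul' := fun c x => rfl
        invFun := fun y => ⟨⟨(y : A), y.2.1⟩, ?_⟩
        left_inv := fun x => rfl
        right_inv := fun x => rfl }
    · have h1 : L (x : J) = 0 := x.2
      have h3 : im ((x : J) : A) = 0 := congrArg Subtype.val h1
      unfold im at h3
      rcases smul_eq_zero.1 h3 with h4 | h4
      · simp at h4
      · exact (sub_eq_zero.1 h4).symm
    · rw [LinearMap.mem_ker]
      ext
      change im (y : A) = 0
      unfold im
      rw [y.2.2, sub_self, smul_zero]
  have h3 := LinearMap.finrank_range_add_finrank_ker L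
  rw [LinearMap.range_eq_top.2 hsurj, finrank_top, hker, h2] at h3
  omega

lemma isCompact_Un : IsCompact (Un J) := by
  have : ProperSpace J := FiniteDimensional.proper ℂ J
  have h1 : IsCompact {x : J | (x : A) ∈ unitary A} := by
    refine Metric.isCompact_of_isClosed_isBounded ?_ ?_
    · exact (isClosed_unitary).preimage continuous_subtype_val
    · refine (Metric.isBounded_iff_subset_closedBall (0 : J)).2 ⟨1, ?_⟩
      intro x hx
      rw [mem_closedBall_zero_iff]
      change ‖(x : A)‖ ≤ 1
      rcases subsingleton_or_nontrivial A with hA | hA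
      · rw [Subsingleton.elim (x : A) 0, norm_zero]; norm_num
      · exact (CStarRing.norm_of_mem_unitary hx).le
  have h2 : Un J = (fun x : J => (x : A)) '' {x : J | (x : A) ∈ unitary A} := by
    ext u
    constructor
    · intro hu
      exact ⟨⟨u, hu.1⟩, hu.2, rfl⟩
    · rintro ⟨x, hx, rfl⟩
      exact ⟨x.2, hx⟩
  rw [h2]
  exact h1.image continuous_subtype_val

end fd

end Pool.Agent.TH597.JC
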