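import Pool.Agent.TH597.JC.Measure

set_option autoImplicit false

open Module MeasureTheory Metric Set
open scoped ENNReal NNReal

namespace Pool.Agent.TH597.JC

variable {A : Type*} [CStarAlgebra A] {J : Submodule ℂ A}

/-- The elements `v` of `Un J` with `‖v - c u‖ < r`. -/
def cap (J : Submodule ℂ A) (u : A) (c : ℂ) (r : ℝ) : Set A := {v | v ∈ Un J ∧ ‖v - c • u‖ < r}

lemma cap_image (h : JCAlg J) {w : A} (hw : w ∈ Un J) (c : ℂ) (r : ℝ) :
    (fun x => w * x * w) '' cap J 1 c r = cap J (w * w) c r := by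
  ext v
  constructor
  · rintro ⟨x, hx, rfl⟩
    refine ⟨Un.sandwich h hw hx.1, ?_⟩
    have : w * x * w - c • (w * w) = w * (x - c • 1) * w := by
      rw [mul_sub, sub_mul, mul_smul_comm, smul_mul_assoc, mul_one]
    change ‖w * x * w - c • (w * w)‖ < r
    rw [this, norm_sandwich hw.2]
    exact hx.2
  · rintro ⟨hv, hr⟩
    have e : w * (star w * v * star w) * w = v := by
      calc w * (star w * v * star w) * w = (w * star w) * v * (star w * w) := by noncomm_ring
        _ = v := by rw [Un.mul_star hw, Un.star_mul hw, one_mul, mul_one]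
    refine ⟨star w * v * star w, ⟨Un.sandwich h (Un.star h hw) hv, ?_⟩, e⟩
    have : v - c • (w * w) = w * ((star w * v * star w) - c • 1) * w := by
      rw [mul_sub, sub_mul, e, mul_smul_comm, smul_mul_assoc, mul_one]
    rw [this, norm_sandwich hw.2] at hr
    exact hr

section fd

variable [FiniteDimensional ℂ J] [MeasurableSpace A] [BorelSpace A]

lemma measurableSet_cap (u : A) (c : ℂ) (r : ℝ) : MeasurableSet (cap J u c r) := by
  have : cap J u c r = Un J ∩ ball (c • u) r := by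
    ext v
    simp [cap, dist_eq_norm]
  rw [this]
  exact (isCompact_Un (J := J)).isClosed.measurableSet.inter measurableSet_ball

/-- The Hausdorff measure of dimension `dim_ℂ J`. -/
noncomputable def hm (J : Submodule ℂ A) : Measure A := μH[(finrank ℂ J : ℝ)]

omit [FiniteDimensional ℂ J] in
lemma hm_image {f : A → A} (hf : Isometry f) (S : Set A) : hm J (f '' S) = hm J S :=
  hf.hausdorffMeasure_image (Or.inl (Nat.cast_nonneg _)) S

lemma hm_cap [Nontrivial A] (h : JCAlg J) {u : A} (hu : u ∈ Un J) (c : ℂ) (r : ℝ) :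
    hm J (cap J u c r) = hm J (cap J 1 c r) := by
  obtain ⟨w, hw, rfl⟩ := exists_sqrt h hu
  rw [← cap_image h hw c r]
  exact hm_image (sandwich_isometry hw.2) _

lemma hm_ball_sa_lt_top (h : JCAlg J) (r : ℝ) :
    hm J ((fun x : Jsa J => (x : A)) '' closedBall (0 : Jsa J) r) < ∞ := by
  let _ : MeasurableSpace (Jsa J) := borel _
  have : BorelSpace (Jsa J) := ⟨rfl⟩
  have e : Isometry (fun x : Jsa J => (x : A)) := isometry_subtype_coe
  unfold hm
  rw [e.hausdorffMeasure_image (Or.inl (Nat.cast_nonneg _)), ← finrank_Jsa h]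
  have : (μH[(finrank ℝ (Jsa J) : ℝ)] : Measure (Jsa J)).IsAddHaarMeasure :=
    isAddHaarMeasure_hausdorffMeasure
  exact (isCompact_closedBall _ _).measure_lt_top

lemma hm_ball_sa_pos (h : JCAlg J) {r : ℝ} (hr : 0 < r) :
    0 < hm J ((fun x : Jsa J => (x : A)) '' closedBall (0 : Jsa J) r) := by
  let _ : MeasurableSpace (Jsa J) := borel _
  have : BorelSpace (Jsa J) := ⟨rfl⟩
  have e : Isometry (fun x : Jsa J => (x : A)) := isometry_subtype_coe
  unfold hm
  rw [e.hausdorffMeasure_image (Or.inl (Nat.cast_nonneg _)), ← finrank_Jsa h]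
  have : (μH[(finrank ℝ (Jsa J) : ℝ)] : Measure (Jsa J)).IsAddHaarMeasure :=
    isAddHaarMeasure_hausdorffMeasure
  exact measure_closedBall_pos _ _ hr

lemma hm_small_lt_top (h : JCAlg J) : hm J (cap J 1 1 (1 / 2)) < ∞ := by
  have hanti : ∀ u ∈ cap J 1 1 (1 / 2), ∀ v ∈ cap J 1 1 (1 / 2),
      ‖u - v‖ ≤ 2 * ‖im u - im v‖ := by
    intro u hu v hv
    rw [im_sub]
    have h1 : re (u - v) = -(1 / 2 : ℂ) • (star (u - 1) * (u - v) + star (u - v) * (v - 1)) := by
      have e1 : star (u - 1) * (u - v) + star (u - v) * (v - 1) =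
          star u * u - star v * v - ((u - v) + star (u - v)) := by
        rw [star_sub, star_sub, star_one]
        noncomm_ring
      rw [e1, Un.star_mul hu.1, Un.star_mul hv.1]
      unfold re
      rw [sub_self, zero_sub, smul_neg, neg_smul, neg_neg]
    have hu1 : ‖u - 1‖ < 1 / 2 := by simpa using hu.2
    have hv1 : ‖v - 1‖ < 1 / 2 := by simpa using hv.2
    have h2 : ‖re (u - v)‖ ≤ 1 / 2 * ‖u - v‖ := by
      rw [h1, norm_smul]
      have e1 : ‖-(1 / 2 : ℂ)‖ = 1 / 2 := by simp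
      rw [e1]
      have e2 : ‖star (u - 1) * (u - v)‖ ≤ 1 / 2 * ‖u - v‖ := by
        refine (norm_mul_le _ _).trans ?_
        rw [norm_star]
        gcongr
      have e3 : ‖star (u - v) * (v - 1)‖ ≤ ‖u - v‖ * (1 / 2) := by
        refine (norm_mul_le _ _).trans ?_
        rw [norm_star]
        gcongr
      have e4 := norm_add_le (star (u - 1) * (u - v)) (star (u - v) * (v - 1))
      linarith
    have h3 : ‖u - v‖ ≤ ‖re (u - v)‖ + ‖im (u - v)‖ := by
      conv_lhs => rw [← re_add_im (u - v)]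
      refine (norm_add_le _ _).trans ?_
      rw [norm_smul]
      simp
    linarith
  have hA : AntilipschitzWith 2 (fun x : cap J 1 1 (1 / 2) => im (x : A)) := by
    refine AntilipschitzWith.of_le_mul_dist fun x y => ?_
    rw [Subtype.dist_eq, dist_eq_norm, dist_eq_norm]
    exact hanti _ x.2 _ y.2
  have h1 := hA.le_hausdorffMeasure_image (d := (finrank ℂ J : ℝ)) (Nat.cast_nonneg _) univ
  have h2 : (μH[(finrank ℂ J : ℝ)] : Measure (cap J 1 1 (1 / 2))) univ = hm J (cap J 1 1 (1 / 2)) := by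
    rw [← isometry_subtype_coe.hausdorffMeasure_image (Or.inl (Nat.cast_nonneg _)) univ]
    simp [hm]
  rw [h2] at h1
  refine h1.trans_lt (ENNReal.mul_lt_top (by simp) ?_)
  refine lt_of_le_of_lt (measure_mono ?_) (hm_ball_sa_lt_top h 1)
  rintro _ ⟨x, -, rfl⟩
  refine ⟨⟨im (x : A), im_mem h x.2.1.1⟩, ?_, rfl⟩
  rw [mem_closedBall_zero_iff]
  change ‖im (x : A)‖ ≤ 1
  refine (norm_im_le _).trans ?_
  rcases subsingleton_or_nontrivial A with hA | hA
  · rw [Subsingleton.elim (x : A) 0, norm_zero]; norm_num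
  · exact (CStarRing.norm_of_mem_unitary x.2.1.2).le

lemma hm_Un_lt_top [Nontrivial A] (h : JCAlg J) : hm J (Un J) < ∞ := by
  obtain ⟨t, ht, hfin, hcov⟩ := (isCompact_Un (J := J)).finite_cover_balls
    (show (0 : ℝ) < 1 / 2 by norm_num)
  have h1 : Un J ⊆ ⋃ x ∈ t, cap J x 1 (1 / 2) := by
    intro u hu
    have := hcov hu
    rw [mem_iUnion₂] at this ⊢
    obtain ⟨x, hx, hx2⟩ := this
    refine ⟨x, hx, hu, ?_⟩
    rw [one_smul]
    exact mem_ball_iff_norm.1 hx2
  refine (measure_mono h1).trans_lt ?_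
  refine measure_biUnion_lt_top hfin fun x hx => ?_
  rw [hm_cap h (ht hx)]
  exact hm_small_lt_top h

lemma hm_Un_pos [Nontrivial A] (h : JCAlg J) : 0 < hm J (Un J) := by
  have h1 : (fun x : Jsa J => (x : A)) '' closedBall (0 : Jsa J) 1 ⊆ im '' (Un J) := by
    rintro _ ⟨b, hb, rfl⟩
    rw [mem_closedBall_zero_iff] at hb
    have hb1 : ‖(b : A)‖ ≤ 1 := hb
    have hsa : IsSelfAdjoint (b : A) := b.2.2
    have hn : IsStarNormal (b : A) := hsa.isStarNormal
    have hf := finite_spectrum h b.2.1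
    set f : ℂ → ℂ := fun z => (Real.sqrt (1 - z.re ^ 2) : ℂ) + (z.re : ℂ) * Complex.I with hfdef
    have hre : ∀ z ∈ spectrum ℂ (b : A), z = (z.re : ℂ) ∧ z.re ^ 2 ≤ 1 := by
      intro z hz
      have h2 := hsa.mem_spectrum_eq_re hz
      refine ⟨h2, ?_⟩
      have h3 : ‖z‖ ≤ ‖(b : A)‖ := spectrum.norm_le_norm_of_mem hz
      have h4 : |z.re| ≤ 1 := (Complex.abs_re_le_norm z).trans (h3.trans hb1)
      rw [← sq_abs]
      exact pow_le_one₀ (abs_nonneg _) h4
    refine ⟨cfc f (b : A), ⟨h.cfc_mem b.2.1 hn hf _, ?_⟩, ?_⟩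
    · rw [cfc_unitary_iff _ _ hn (cont_of_finite hf _)]
      intro z hz
      apply star_mul_of_norm
      rw [hfdef]
      have h5 := (hre z hz).2
      have : ‖(Real.sqrt (1 - z.re ^ 2) : ℂ) + (z.re : ℂ) * Complex.I‖ =
          Real.sqrt (Real.sqrt (1 - z.re ^ 2) ^ 2 + z.re ^ 2) := Complex.norm_add_mul_I _ _
      rw [this, Real.sq_sqrt (by linarith)]
      norm_num
    · unfold im
      rw [← cfc_star, ← cfc_sub _ _ _ (cont_of_finite hf _) (cont_of_finite hf _),
        ← cfc_smul _ _ _ (cont_of_finite hf _)]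
      have : cfc (fun z : ℂ => -(Complex.I / 2) • (f z - star (f z))) (b : A) =
          cfc (fun z : ℂ => z) (b : A) := by
        refine cfc_congr fun z hz => ?_
        have h6 := (hre z hz).1
        simp only [hfdef, star_add, star_mul', smul_eq_mul]
        have e1 : star ((Real.sqrt (1 - z.re ^ 2) : ℝ) : ℂ) = ((Real.sqrt (1 - z.re ^ 2) : ℝ) : ℂ) :=
          Complex.conj_ofReal _
        have e2 : star ((z.re : ℝ) : ℂ) = (z.re : ℂ) := Complex.conj_ofReal _
        have e3 : star Complex.I = - Complex.I := Complex.conj_I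
        rw [e1, e2, e3]
        conv_rhs => rw [h6]
        linear_combination (-(z.re : ℂ)) * Complex.I_mul_I
      rw [this, cfc_id' ℂ (b : A)]
  have h2 := hm_ball_sa_pos h (show (0 : ℝ) < 1 by norm_num)
  have h3 : hm J (im '' (Un J)) ≤ (1 : ℝ≥0) ^ (finrank ℂ J : ℝ) * hm J (Un J) :=
    im_lipschitz.hausdorffMeasure_image_le (Nat.cast_nonneg _) _
  have h4 := h2.trans_le ((measure_mono h1).trans h3)
  simpa using h4

end fd

end Pool.Agent.TH597.JC
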