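import Pool.Agent.TH597.JC.Rotation

set_option autoImplicit false

open Module MeasureTheory Metric Set
open scoped ENNReal NNReal

namespace Pool.Agent.TH597.JC

variable {A : Type*} [CStarAlgebra A] {J : Submodule ℂ A}

lemma norm_pow_sub_le [Nontrivial A] {u v : A} (hu : ‖u‖ ≤ 1) (hv : ‖v‖ ≤ 1) (m : ℕ) :
    ‖u ^ m - v ^ m‖ ≤ m * ‖u - v‖ := by
  induction m with
  | zero => simp
  | succ m ih =>
    have e : u ^ (m + 1) - v ^ (m + 1) = u ^ m * (u - v) + (u ^ m - v ^ m) * v := by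
      rw [pow_succ, pow_succ]; noncomm_ring
    rw [e]
    have h1 : ‖u ^ m * (u - v)‖ ≤ 1 * ‖u - v‖ := by
      refine (norm_mul_le _ _).trans ?_
      gcongr
      refine (norm_pow_le _ _).trans ?_
      exact pow_le_one₀ (norm_nonneg _) hu
    have h2 : ‖(u ^ m - v ^ m) * v‖ ≤ (m * ‖u - v‖) * 1 := by
      refine (norm_mul_le _ _).trans ?_
      gcongr
    have h3 := norm_add_le (u ^ m * (u - v)) ((u ^ m - v ^ m) * v)
    push_cast
    linarith

section fd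

variable [FiniteDimensional ℂ J] [MeasurableSpace A] [BorelSpace A]

omit [FiniteDimensional ℂ J] in
lemma hm_pow_le [Nontrivial A] {S : Set A} (hS : S ⊆ Un J) (m : ℕ) :
    hm J ((fun x => x ^ m) '' S) ≤ (m : ℝ≥0∞) ^ (finrank ℂ J) * hm J S := by
  have hL : LipschitzOnWith (m : ℝ≥0) (fun x : A => x ^ m) S := by
    refine LipschitzOnWith.of_dist_le_mul fun x hx y hy => ?_
    rw [dist_eq_norm, dist_eq_norm]
    exact norm_pow_sub_le (norm_le_one_of_Un (hS hx)).le (norm_le_one_of_Un (hS hy)).le m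
  have := hL.hausdorffMeasure_image_le (d := (finrank ℂ J : ℝ)) (Nat.cast_nonneg _)
  rw [ENNReal.rpow_natCast] at this
  simpa [hm] using this

lemma hm_le_of_roots [Nontrivial A] (h : JCAlg J) {S T : Set A} (hS : S ⊆ Un J) (hT : T ⊆ Un J)
    {m : ℕ} (hm0 : m ≠ 0) (hST : ∀ u ∈ S, cfc (rt m) u ∈ T) :
    hm J S ≤ (m : ℝ≥0∞) ^ (finrank ℂ J) * hm J T := by
  refine le_trans (measure_mono ?_) (hm_pow_le hT m)
  intro u hu
  exact ⟨cfc (rt m) u, hST u hu, root_pow h (hS hu) hm0⟩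

omit [MeasurableSpace A] [BorelSpace A] [FiniteDimensional ℂ J] in
lemma cap_subset (u : A) (c : ℂ) (r : ℝ) : cap J u c r ⊆ Un J := fun _ hx => hx.1

lemma packing [Nontrivial A] (h : JCAlg J) {T : Finset A} (hT : ∀ u ∈ T, u ∈ Un J) {c : ℂ} {r : ℝ}
    (hdisj : ∀ u ∈ T, ∀ v ∈ T, u ≠ v → Disjoint (cap J u c r) (cap J v c r)) {m : ℕ}
    (hmm : hm J (Un J) ≤ (m : ℝ≥0∞) ^ (finrank ℂ J) * hm J (cap J 1 c r)) :
    T.card ≤ m ^ (finrank ℂ J) := by
  have h1 : (T.card : ℝ≥0∞) * hm J (cap J 1 c r) = ∑ u ∈ T, hm J (cap J u c r) := by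
    rw [Finset.sum_congr rfl (fun u hu => hm_cap h (hT u hu) c r)]
    simp
  have h2 : ∑ u ∈ T, hm J (cap J u c r) ≤ hm J (Un J) := by
    rw [← measure_biUnion_finset (fun u hu v hv huv => hdisj u hu v hv huv)
      (fun u _ => measurableSet_cap u c r)]
    refine measure_mono ?_
    exact iUnion₂_subset fun u _ => cap_subset u c r
  have h0 : hm J (cap J 1 c r) ≠ 0 := by
    intro h0
    rw [h0, mul_zero] at hmm
    exact absurd (hm_Un_pos h) (not_lt.2 hmm)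
  have hinf : hm J (cap J 1 c r) ≠ ∞ :=
    ((measure_mono (cap_subset 1 c r)).trans_lt (hm_Un_lt_top h)).ne
  have h3 : (T.card : ℝ≥0∞) * hm J (cap J 1 c r) ≤
      ((m ^ finrank ℂ J : ℕ) : ℝ≥0∞) * hm J (cap J 1 c r) := by
    push_cast
    exact h1.le.trans (h2.trans hmm)
  rw [ENNReal.mul_le_mul_iff_left h0 hinf] at h3
  exact Nat.cast_le.1 h3

end fd

/-- Maximal separated sets. -/
lemma exists_net {X : Type*} [PseudoMetricSpace X] (S : Set X) (r : ℝ) (B : ℕ)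
    (hB : ∀ T : Finset X, (∀ u ∈ T, u ∈ S) → (∀ u ∈ T, ∀ v ∈ T, u ≠ v → r ≤ dist u v) →
      T.card ≤ B) (hr : 0 < r) :
    ∃ T : Finset X, (∀ u ∈ T, u ∈ S) ∧ T.card ≤ B ∧ ∀ v ∈ S, ∃ u ∈ T, dist v u < r := by
  classical
  by_contra hcon
  push Not at hcon
  have key : ∀ n : ℕ, ∃ T : Finset X, (∀ u ∈ T, u ∈ S) ∧
      (∀ u ∈ T, ∀ v ∈ T, u ≠ v → r ≤ dist u v) ∧ T.card = n := by
    intro n
    induction n with
    | zero => exact ⟨∅, by simp, by simp, by simp⟩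
    | succ n ih =>
      obtain ⟨T, h1, h2, h3⟩ := ih
      obtain ⟨v, hv, hv2⟩ := hcon T h1 (hB T h1 h2)
      have hvT : v ∉ T := by
        intro hvT
        have := hv2 v hvT
        rw [dist_self] at this
        linarith
      refine ⟨insert v T, ?_, ?_, ?_⟩
      · intro u hu
        rcases Finset.mem_insert.1 hu with rfl | hu
        · exact hv
        · exact h1 u hu
      · intro u hu w hw huw
        rcases Finset.mem_insert.1 hu with rfl | hu'
        · rcases Finset.mem_insert.1 hw with rfl | hw'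
          · exact absurd rfl huw
          · exact hv2 w hw'
        · rcases Finset.mem_insert.1 hw with rfl | hw'
          · rw [dist_comm]
            exact hv2 u hu'
          · exact h2 u hu' w hw' huw
      · rw [Finset.card_insert_of_notMem hvT, h3]
  obtain ⟨T, h1, h2, h3⟩ := key (B + 1)
  have := hB T h1 h2
  omega

/-! ### Trigonometry -/

lemma norm_exp_sub_sq (φ c : ℝ) :
    ‖Complex.exp ((φ : ℂ) * Complex.I) - (c : ℂ)‖ ^ 2 = 1 + c ^ 2 - 2 * c * Real.cos φ := by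
  rw [Complex.exp_mul_I, ← Complex.ofReal_cos, ← Complex.ofReal_sin]
  have e : ((Real.cos φ : ℝ) : ℂ) + ((Real.sin φ : ℝ) : ℂ) * Complex.I - (c : ℂ) =
      (((Real.cos φ - c : ℝ)) : ℂ) + ((Real.sin φ : ℝ) : ℂ) * Complex.I := by push_cast; ring
  rw [e, Complex.norm_add_mul_I, Real.sq_sqrt (by positivity)]
  have := Real.sin_sq_add_cos_sq φ
  nlinarith

lemma norm_sub_one_sq {z : ℂ} (hz : ‖z‖ = 1) : ‖z - 1‖ ^ 2 = 2 - 2 * Real.cos (Complex.arg z) := by
  have h1 : Complex.exp ((Complex.arg z : ℂ) * Complex.I) = z := by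
    have := Complex.norm_mul_exp_arg_mul_I z
    rwa [hz, Complex.ofReal_one, one_mul] at this
  have h2 := norm_exp_sub_sq (Complex.arg z) 1
  rw [h1] at h2
  push_cast at h2
  linarith

lemma rt_sub_sq (k : ℕ) (z : ℂ) (c : ℝ) :
    ‖rt k z - (c : ℂ)‖ ^ 2 = 1 + c ^ 2 - 2 * c * Real.cos (Complex.arg z / k) :=
  norm_exp_sub_sq _ _

lemma abs_arg_lt {z : ℂ} (hz : ‖z‖ = 1) (h2 : ‖z - 1‖ < 2) : |Complex.arg z| < Real.pi := by
  have h1 := norm_sub_one_sq hz
  have h3 : ‖z - 1‖ ^ 2 < 4 := by nlinarith [norm_nonneg (z - 1)]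
  have h4 : -1 < Real.cos (Complex.arg z) := by linarith
  rcases lt_or_eq_of_le (Complex.abs_arg_le_pi z) with h5 | h5
  · exact h5
  · exfalso
    rw [← Real.cos_abs, h5, Real.cos_pi] at h4
    exact lt_irrefl _ h4

lemma rt_four {z : ℂ} (hz : ‖z‖ = 1) (h2 : ‖z - 1‖ < 2) : ‖rt 4 z - ((√2 : ℝ) : ℂ)‖ < 1 := by
  have h1 := abs_arg_lt hz h2
  have h3 : Real.cos (Real.pi / 4) < Real.cos (Complex.arg z / 4) := by
    rw [← Real.cos_abs (Complex.arg z / 4)]
    have h4 : |Complex.arg z / 4| = |Complex.arg z| / 4 := by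
      rw [abs_div]; norm_num
    rw [h4]
    apply Real.cos_lt_cos_of_nonneg_of_le_pi (by positivity) (by linarith [Real.pi_pos])
    linarith
  rw [Real.cos_pi_div_four] at h3
  have h5 := rt_sub_sq 4 z (√2)
  have h6 : (√2 : ℝ) ^ 2 = 2 := Real.sq_sqrt (by norm_num)
  have h7 : (0 : ℝ) < √2 := Real.sqrt_pos.2 (by norm_num)
  push_cast at h5
  have h8 : ‖rt 4 z - ((√2 : ℝ) : ℂ)‖ ^ 2 < 1 := by
    rw [h5]
    nlinarith
  exact (sq_lt_one_iff₀ (norm_nonneg _)).1 h8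

section fd3

variable [FiniteDimensional ℂ J]

section ms
variable [MeasurableSpace A] [BorelSpace A]

lemma hm_Un_le_four [Nontrivial A] (h : JCAlg J) :
    hm J (Un J) ≤ ((4 : ℕ) : ℝ≥0∞) ^ (finrank ℂ J) * hm J (cap J 1 ((√2 : ℝ) : ℂ) 1) := by
  have h1 : Un J ⊆ (Un J \ far J 1 2) ∪ far J 1 2 := by
    intro u hu
    by_cases hf : u ∈ far J 1 2
    · exact Or.inr hf
    · exact Or.inl ⟨hu, hf⟩
  have h2 : hm J (Un J) ≤ hm J (Un J \ far J 1 2) := by
    refine (measure_mono h1).trans ((measure_union_le _ _).trans ?_)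
    rw [hm_far_two h, add_zero]
  refine h2.trans ?_
  refine hm_le_of_roots h sdiff_subset (cap_subset _ _ _) (by norm_num) ?_
  intro u hu
  refine ⟨root_mem h hu.1 4, ?_⟩
  rw [norm_sub_scalar_lt h hu.1 _ _ one_pos]
  intro z hz
  refine rt_four (norm_circle hu.1 hz) ?_
  have h3 : ‖u - (1 : ℂ) • (1 : A)‖ < 2 := by
    by_contra hcon
    exact hu.2 ⟨hu.1, not_lt.1 hcon⟩
  exact (norm_sub_scalar_lt' h hu.1 1 two_pos).1 h3 z hz

end ms

/-- The first covering of the unitary elements. -/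
theorem cover_four [Nontrivial A] (h : JCAlg J) :
    ∃ T : Finset A, (∀ u ∈ T, u ∈ Un J) ∧ T.card ≤ 4 ^ (finrank ℂ J) ∧
      ∀ v ∈ Un J, ∃ u ∈ T, dist v u < √2 := by
  let _ : MeasurableSpace A := borel A
  have : BorelSpace A := ⟨rfl⟩
  refine exists_net (Un J) (√2) (4 ^ finrank ℂ J) ?_ (Real.sqrt_pos.2 (by norm_num))
  intro T hT hsep
  refine packing h hT (c := ((√2 : ℝ) : ℂ)) (r := 1) ?_ (hm_Un_le_four h)
  intro u hu v hv huv
  rw [Set.disjoint_left]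
  rintro w ⟨-, hw1⟩ ⟨-, hw2⟩
  have h1 := hsep u hu v hv huv
  have h7 : (0 : ℝ) < √2 := Real.sqrt_pos.2 (by norm_num)
  have h2 : ‖((√2 : ℝ) : ℂ) • (u - v)‖ < 2 := by
    have e : ((√2 : ℝ) : ℂ) • (u - v) = (w - ((√2 : ℝ) : ℂ) • v) - (w - ((√2 : ℝ) : ℂ) • u) := by
      rw [smul_sub]; abel
    rw [e]
    refine (norm_sub_le _ _).trans_lt ?_
    linarith
  rw [norm_smul, Complex.norm_real, Real.norm_eq_abs, abs_of_pos h7] at h2
  rw [dist_eq_norm] at h1
  have h6 : √2 * √2 = (2 : ℝ) := Real.mul_self_sqrt (by norm_num)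
  nlinarith

end fd3

end Pool.Agent.TH597.JC
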