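import Pool.Agent.TH597.JC.Measure2

set_option autoImplicit false

open Module MeasureTheory Metric Set
open scoped ENNReal NNReal

namespace Pool.Agent.TH597.JC

variable {A : Type*} [CStarAlgebra A] {J : Submodule ℂ A}

lemma norm_le_one_of_Un [Nontrivial A] {u : A} (hu : u ∈ Un J) : ‖u‖ = 1 :=
  CStarRing.norm_of_mem_unitary hu.2

/-- The elements of `Un J` at distance at least `c` from the scalar `ζ`. -/
def far (J : Submodule ℂ A) (ζ : ℂ) (c : ℝ) : Set A := {v | v ∈ Un J ∧ c ≤ ‖v - ζ • (1 : A)‖}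

lemma far_image {ζ : ℂ} (hζ : ‖ζ‖ = 1) (c : ℝ) :
    (fun x : A => ζ • x) '' far J 1 c = far J ζ c := by
  have h0 : ζ ≠ 0 := by
    rintro rfl
    simp at hζ
  ext v
  constructor
  · rintro ⟨x, hx, rfl⟩
    refine ⟨Un.scalar hx.1 hζ, ?_⟩
    have h1 : ζ • x - ζ • (1 : A) = ζ • (x - (1 : ℂ) • 1) := by rw [smul_sub, one_smul]
    change c ≤ ‖ζ • x - ζ • (1 : A)‖
    rw [h1, norm_smul, hζ, one_mul]
    exact hx.2
  · rintro ⟨hv, hr⟩
    have h3 : ζ • (ζ⁻¹ • v) = v := smul_inv_smul₀ h0 v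
    refine ⟨ζ⁻¹ • v, ⟨Un.scalar hv (by rw [norm_inv, hζ, inv_one]), ?_⟩, h3⟩
    have h1 : v - ζ • (1 : A) = ζ • (ζ⁻¹ • v - (1 : ℂ) • 1) := by
      rw [smul_sub, one_smul, h3]
    rw [h1, norm_smul, hζ, one_mul] at hr
    exact hr

section fd

variable [FiniteDimensional ℂ J] [MeasurableSpace A] [BorelSpace A]

lemma measurableSet_far (ζ : ℂ) (c : ℝ) : MeasurableSet (far J ζ c) := by
  have : far J ζ c = Un J ∩ (ball (ζ • (1 : A)) c)ᶜ := by
    ext v
    simp [far, dist_eq_norm]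
  rw [this]
  exact (isCompact_Un (J := J)).isClosed.measurableSet.inter measurableSet_ball.compl

omit [FiniteDimensional ℂ J] in
lemma hm_far {ζ : ℂ} (hζ : ‖ζ‖ = 1) (c : ℝ) : hm J (far J ζ c) = hm J (far J 1 c) := by
  rw [← far_image hζ c]
  refine hm_image (Isometry.of_dist_eq fun x y => ?_) _
  rw [dist_eq_norm, dist_eq_norm, ← smul_sub, norm_smul, hζ, one_mul]

lemma rotation [Nontrivial A] (h : JCAlg J) {k : ℕ} (ζ : Fin k → ℂ) (hζ : ∀ j, ‖ζ j‖ = 1) {c : ℝ}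
    (hc : 0 < c) (hsep : ∀ i j, ∀ z : ℂ, ‖z‖ = 1 → c ≤ ‖z - ζ i‖ → c ≤ ‖z - ζ j‖ → i = j) :
    (k : ℝ≥0∞) * hm J (far J 1 c) ≤ (finrank ℂ J : ℝ≥0∞) * hm J (Un J) := by
  classical
  have h1 : (k : ℝ≥0∞) * hm J (far J 1 c) = ∑ j : Fin k, hm J (far J (ζ j) c) := by
    rw [Finset.sum_congr rfl (fun j _ => hm_far (J := J) (hζ j) c)]
    simp
  have h2 : ∀ j : Fin k, hm J (far J (ζ j) c) =
      ∫⁻ u, (far J (ζ j) c).indicator (fun _ => (1 : ℝ≥0∞)) u ∂(hm J) := by
    intro j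
    rw [lintegral_indicator_const (measurableSet_far _ _), one_mul]
  have h3 : (finrank ℂ J : ℝ≥0∞) * hm J (Un J) =
      ∫⁻ u, (Un J).indicator (fun _ => (finrank ℂ J : ℝ≥0∞)) u ∂(hm J) := by
    rw [lintegral_indicator_const (isCompact_Un (J := J)).isClosed.measurableSet]
  rw [h1, Finset.sum_congr rfl (fun j _ => h2 j), h3,
    ← lintegral_finsetSum _ (fun j _ => measurable_const.indicator (measurableSet_far _ _))]
  refine lintegral_mono fun u => ?_
  by_cases hu : u ∈ Un J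
  · rw [indicator_of_mem hu]
    have h4 : ∑ j : Fin k, (far J (ζ j) c).indicator (fun _ => (1 : ℝ≥0∞)) u =
        ((Finset.univ.filter fun j : Fin k => u ∈ far J (ζ j) c).card : ℝ≥0∞) := by
      rw [Finset.card_filter]
      push_cast
      refine Finset.sum_congr rfl fun j _ => ?_
      by_cases hj : u ∈ far J (ζ j) c
      · simp [hj]
      · simp [hj]
    rw [h4]
    obtain ⟨S, hS, hcard⟩ := spectrum_bound h hu.1
    have h5 : ∀ j : Fin k, u ∈ far J (ζ j) c → ∃ z ∈ spectrum ℂ u, c ≤ ‖z - ζ j‖ := by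
      intro j hj
      by_contra hcon
      push Not at hcon
      exact absurd ((norm_sub_scalar_lt' h hu (ζ j) hc).2 hcon) (not_lt.2 hj.2)
    choose! g hg1 hg2 using h5
    have h6 : (Finset.univ.filter fun j : Fin k => u ∈ far J (ζ j) c).card ≤ S.card := by
      refine Finset.card_le_card_of_injOn g ?_ ?_
      · intro j hj
        exact hS (hg1 j (by simpa using hj))
      · intro i hi j hj hij
        have hi' : u ∈ far J (ζ i) c := by simpa using hi
        have hj' : u ∈ far J (ζ j) c := by simpa using hj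
        refine hsep i j (g i) (norm_circle hu (hg1 i hi')) (hg2 i hi') ?_
        rw [hij]
        exact hg2 j hj'
    exact Nat.cast_le.2 (h6.trans hcard)
  · have : ∑ j : Fin k, (far J (ζ j) c).indicator (fun _ => (1 : ℝ≥0∞)) u = 0 := by
      refine Finset.sum_eq_zero fun j _ => ?_
      rw [indicator_of_notMem]
      exact fun hj => hu hj.1
    rw [this]
    exact zero_le

end fd

/-! ### Separated points on the circle -/

lemma parallelogram_circle {z a : ℂ} (hz : ‖z‖ = 1) (ha : ‖a‖ = 1) :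
    ‖z - a‖ ^ 2 + ‖z + a‖ ^ 2 = 4 := by
  have := parallelogram_law_with_norm ℝ z a
  rw [hz, ha] at this
  nlinarith

lemma sin_ge {k m : ℕ} (hm : 0 < m) (hmk : m < k) : 2 / (k : ℝ) ≤ Real.sin (Real.pi * m / k) := by
  have hk : (0 : ℝ) < k := by exact_mod_cast (lt_trans hm hmk)
  have hm1 : (1 : ℝ) ≤ m := by exact_mod_cast hm
  have hmk1 : (m : ℝ) + 1 ≤ k := by exact_mod_cast hmk
  have hpi := Real.pi_pos
  by_cases h2 : 2 * (m : ℝ) ≤ k
  · have h3 : Real.pi * m / k ≤ Real.pi / 2 := by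
      rw [div_le_div_iff₀ hk two_pos]
      nlinarith
    have h4 := Real.mul_le_sin (x := Real.pi * m / k) (by positivity) h3
    refine le_trans ?_ h4
    have : 2 / Real.pi * (Real.pi * m / k) = 2 * m / k := by field_simp
    rw [this]
    gcongr
    linarith
  · push Not at h2
    have h5 : Real.sin (Real.pi * m / k) = Real.sin (Real.pi * ((k : ℝ) - m) / k) := by
      rw [← Real.sin_pi_sub]
      congr 1
      field_simp
    have h3 : Real.pi * ((k : ℝ) - m) / k ≤ Real.pi / 2 := by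
      rw [div_le_div_iff₀ hk two_pos]
      nlinarith
    have h6 : 0 ≤ Real.pi * ((k : ℝ) - m) / k := by
      have : (0 : ℝ) ≤ (k : ℝ) - m := by linarith
      positivity
    have h4 := Real.mul_le_sin (x := Real.pi * ((k : ℝ) - m) / k) h6 h3
    rw [h5]
    refine le_trans ?_ h4
    have : 2 / Real.pi * (Real.pi * ((k : ℝ) - m) / k) = 2 * ((k : ℝ) - m) / k := by field_simp
    rw [this]
    gcongr
    linarith

/-- The `k`-th roots of unity. -/
noncomputable def zt (k : ℕ) (j : Fin k) : ℂ :=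
  Complex.exp (((2 * Real.pi * (j : ℕ) / k : ℝ) : ℂ) * Complex.I)

lemma zt_norm (k : ℕ) (j : Fin k) : ‖zt k j‖ = 1 := Complex.norm_exp_ofReal_mul_I _

lemma zt_dist {k : ℕ} {i j : Fin k} (hij : (i : ℕ) < j) : 4 / (k : ℝ) ≤ ‖zt k i - zt k j‖ := by
  have hk : (0 : ℝ) < k := by
    have : 0 < k := lt_of_le_of_lt (Nat.zero_le _) j.2
    exact_mod_cast this
  set m : ℕ := (j : ℕ) - i with hm
  have hmr : (m : ℝ) = (j : ℕ) - (i : ℕ) := by
    rw [hm]
    push_cast [hij.le]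
    ring
  have h1 : zt k i - zt k j = zt k i * (1 - Complex.exp (Complex.I * ((2 * Real.pi * m / k : ℝ) : ℂ))) := by
    unfold zt
    rw [mul_sub, mul_one, ← Complex.exp_add]
    congr 2
    rw [hmr]
    push_cast
    ring
  rw [h1, norm_mul, zt_norm, one_mul, norm_sub_rev, Complex.norm_exp_I_mul_ofReal_sub_one]
  have h2 : 2 * Real.pi * m / k / 2 = Real.pi * m / k := by ring
  rw [h2]
  have h3 := sin_ge (k := k) (m := m) (by omega) (by omega)
  rw [Real.norm_eq_abs]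
  refine le_trans ?_ (le_abs_self _)
  have : 4 / (k : ℝ) = 2 * (2 / k) := by ring
  rw [this]
  linarith

lemma zt_sep {k : ℕ} {c ρ : ℝ} (hρ0 : 0 ≤ ρ) (hρ : ρ < 2 / k) (hc : 4 - ρ ^ 2 ≤ c ^ 2) (hc0 : 0 < c)
    (i j : Fin k) (z : ℂ) (hz : ‖z‖ = 1) (h1 : c ≤ ‖z - zt k i‖) (h2 : c ≤ ‖z - zt k j‖) :
    i = j := by
  have key : ∀ a : ℂ, ‖a‖ = 1 → c ≤ ‖z - a‖ → ‖z + a‖ ≤ ρ := by
    intro a ha hca
    have h3 := parallelogram_circle hz ha
    have h4 : c ^ 2 ≤ ‖z - a‖ ^ 2 := by gcongr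
    have h5 : ‖z + a‖ ^ 2 ≤ ρ ^ 2 := by linarith
    exact abs_le_of_sq_le_sq' h5 hρ0 |>.2
  have hi := key _ (zt_norm k i) h1
  have hj := key _ (zt_norm k j) h2
  have hd : ‖zt k i - zt k j‖ ≤ 2 * ρ := by
    have : zt k i - zt k j = (z + zt k i) - (z + zt k j) := by ring
    rw [this]
    refine (norm_sub_le _ _).trans ?_
    linarith
  have h4k : 2 * ρ < 4 / (k : ℝ) := by
    have : 4 / (k : ℝ) = 2 * (2 / k) := by ring
    rw [this]
    linarith
  rcases lt_trichotomy (i : ℕ) (j : ℕ) with hij | hij | hij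
  · exact absurd (zt_dist hij) (not_le.2 (lt_of_le_of_lt hd h4k))
  · exact Fin.ext hij
  · have := zt_dist hij
    rw [norm_sub_rev] at this
    exact absurd this (not_le.2 (lt_of_le_of_lt hd h4k))

section fd2

variable [FiniteDimensional ℂ J] [MeasurableSpace A] [BorelSpace A]

lemma hm_far_le [Nontrivial A] (h : JCAlg J) {k : ℕ} {c ρ : ℝ} (hρ0 : 0 ≤ ρ) (hρ : ρ < 2 / k)
    (hc : 4 - ρ ^ 2 ≤ c ^ 2) (hc0 : 0 < c) :
    (k : ℝ≥0∞) * hm J (far J 1 c) ≤ (finrank ℂ J : ℝ≥0∞) * hm J (Un J) :=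
  rotation h (zt k) (zt_norm k) hc0 (zt_sep hρ0 hρ hc hc0)

lemma hm_far_two [Nontrivial A] (h : JCAlg J) : hm J (far J 1 2) = 0 := by
  by_contra h0
  have hB : (finrank ℂ J : ℝ≥0∞) * hm J (Un J) ≠ ∞ :=
    ENNReal.mul_ne_top (by simp) (hm_Un_lt_top h).ne
  obtain ⟨n, hn⟩ := ENNReal.exists_nat_mul_gt h0 hB
  have hn0 : 0 < n := by
    rcases Nat.eq_zero_or_pos n with rfl | hn0
    · simp at hn
    · exact hn0
  have h1 := hm_far_le h (k := n) (c := 2) (ρ := 0) le_rfl (by positivity) (by norm_num) two_pos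
  exact absurd h1 (not_le.2 hn)

end fd2

end Pool.Agent.TH597.JC
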