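import Pool.Agent.TH597.JC.Greedy

set_option autoImplicit false

open Module MeasureTheory Metric Set
open scoped ENNReal NNReal

namespace Pool.Agent.TH597.JC

variable {A : Type*} [CStarAlgebra A] {J : Submodule ℂ A}

lemma rt_two {z : ℂ} (hz : ‖z‖ = 1) {ρ : ℝ}
    (h2 : ‖z - 1‖ < √(4 - ρ ^ 2)) : ‖rt 2 z - 1‖ < √(2 - ρ) := by
  have h1 := norm_sub_one_sq hz
  have h3 : ‖z - 1‖ ^ 2 < 4 - ρ ^ 2 := (Real.lt_sqrt (norm_nonneg _)).1 h2
  set θ := Complex.arg z with hθ
  have h4 : -1 + ρ ^ 2 / 2 < Real.cos θ := by linarith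
  have h5 : Real.cos θ = 2 * Real.cos (θ / 2) ^ 2 - 1 := by
    rw [← Real.cos_two_mul]
    congr 1
    ring
  have h6 : 0 ≤ Real.cos (θ / 2) := by
    apply Real.cos_nonneg_of_neg_pi_div_two_le_of_le
    · have := Complex.neg_pi_lt_arg z
      linarith
    · have := Complex.arg_le_pi z
      linarith
  have h7 : ρ / 2 < Real.cos (θ / 2) := by
    have : (ρ / 2) ^ 2 < Real.cos (θ / 2) ^ 2 := by nlinarith
    exact lt_of_pow_lt_pow_left₀ 2 h6 this
  have h8 := rt_sub_sq 2 z 1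
  rw [Real.lt_sqrt (norm_nonneg _)]
  push_cast at h8
  rw [h8]
  have : Real.cos (Complex.arg z / 2) = Real.cos (θ / 2) := rfl
  rw [this]
  linarith

lemma rt_small {z : ℂ} {m : ℕ} (hm : 0 < m) : ‖rt m z - 1‖ ≤ Real.pi / m := by
  have hm' : (0 : ℝ) < m := by exact_mod_cast hm
  have h8 := rt_sub_sq m z 1
  push_cast at h8
  have h1 : 1 - (Complex.arg z / m) ^ 2 / 2 ≤ Real.cos (Complex.arg z / m) :=
    Real.one_sub_sq_div_two_le_cos
  have h2 : ‖rt m z - 1‖ ^ 2 ≤ (Complex.arg z / m) ^ 2 := by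
    rw [h8]; linarith
  have h3 : ‖rt m z - 1‖ ≤ |Complex.arg z / m| := by
    rw [← sq_abs (Complex.arg z / m)] at h2
    exact abs_le_of_sq_le_sq' h2 (abs_nonneg _) |>.2
  refine h3.trans ?_
  rw [abs_div, Nat.abs_cast]
  gcongr
  exact Complex.abs_arg_le_pi z

section fd

variable [FiniteDimensional ℂ J]

lemma finrank_pos' [Nontrivial A] (h : JCAlg J) : 0 < finrank ℂ J := by
  have : Nontrivial J := ⟨⟨⟨1, h.one⟩, 0, fun he => one_ne_zero (congrArg Subtype.val he)⟩⟩
  exact finrank_pos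

section ms

variable [MeasurableSpace A] [BorelSpace A]

lemma hm_two [Nontrivial A] (h : JCAlg J) {ρ : ℝ} (hρ : ρ = 1 / (3 * (finrank ℂ J : ℝ))) :
    ((3 : ℕ) : ℝ≥0∞) * hm J (Un J) ≤
      ((4 * 2 ^ finrank ℂ J : ℕ) : ℝ≥0∞) * hm J (cap J 1 1 (√(2 - ρ))) := by
  set N := finrank ℂ J with hN
  have hN0 : 0 < N := finrank_pos' h
  have hNr : (1 : ℝ) ≤ N := by exact_mod_cast hN0
  have hρ0 : 0 < ρ := by rw [hρ]; positivity
  have hρ1 : ρ ≤ 1 := by
    rw [hρ, div_le_one (by positivity)]; linarith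
  set c : ℝ := √(4 - ρ ^ 2) with hc
  have hc2 : c ^ 2 = 4 - ρ ^ 2 := Real.sq_sqrt (by nlinarith)
  have hc0 : 0 < c := Real.sqrt_pos.2 (by nlinarith)
  have hfin := (hm_Un_lt_top h).ne
  -- the far part is small
  have h1 : 4 * hm J (far J 1 c) ≤ hm J (Un J) := by
    have h2 := hm_far_le h (k := 4 * N) (c := c) (ρ := ρ) hρ0.le (by
      rw [hρ]
      push_cast
      rw [div_lt_div_iff₀ (by positivity) (by positivity)]
      linarith) hc2.ge hc0
    have h3 : (N : ℝ≥0∞) * (4 * hm J (far J 1 c)) ≤ (N : ℝ≥0∞) * hm J (Un J) := by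
      refine le_trans (le_of_eq ?_) h2
      push_cast
      ring
    have hN1 : (N : ℝ≥0∞) ≠ 0 := by exact_mod_cast hN0.ne'
    exact (ENNReal.mul_le_mul_iff_right hN1 (by simp)).1 h3
  have h2 : hm J (Un J) ≤ hm J (Un J \ far J 1 c) + hm J (far J 1 c) := by
    refine (measure_mono ?_).trans (measure_union_le _ _)
    intro u hu
    by_cases hf : u ∈ far J 1 c
    · exact Or.inr hf
    · exact Or.inl ⟨hu, hf⟩
  have h3 : 3 * hm J (Un J) ≤ 4 * hm J (Un J \ far J 1 c) := by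
    have h4 : 4 * hm J (Un J) ≤ 4 * hm J (Un J \ far J 1 c) + hm J (Un J) := by
      calc 4 * hm J (Un J) ≤ 4 * (hm J (Un J \ far J 1 c) + hm J (far J 1 c)) := by gcongr
        _ = 4 * hm J (Un J \ far J 1 c) + 4 * hm J (far J 1 c) := by ring
        _ ≤ _ := by gcongr
    have h5 : 4 * hm J (Un J) = 3 * hm J (Un J) + hm J (Un J) := by ring
    rw [h5] at h4
    exact (ENNReal.add_le_add_iff_right hfin).1 h4
  have h4 : hm J (Un J \ far J 1 c) ≤ ((2 : ℕ) : ℝ≥0∞) ^ N * hm J (cap J 1 1 (√(2 - ρ))) := by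
    refine hm_le_of_roots h sdiff_subset (cap_subset _ _ _) (by norm_num) ?_
    intro u hu
    refine ⟨root_mem h hu.1 2, ?_⟩
    rw [norm_sub_scalar_lt h hu.1 _ _ (Real.sqrt_pos.2 (by linarith))]
    intro z hz
    refine rt_two (norm_circle hu.1 hz) ?_
    have h3 : ‖u - (1 : ℂ) • (1 : A)‖ < c := by
      by_contra hcon
      exact hu.2 ⟨hu.1, not_lt.1 hcon⟩
    exact (norm_sub_scalar_lt' h hu.1 1 hc0).1 h3 z hz
  calc ((3 : ℕ) : ℝ≥0∞) * hm J (Un J) ≤ 4 * hm J (Un J \ far J 1 c) := by exact_mod_cast h3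
    _ ≤ 4 * (((2 : ℕ) : ℝ≥0∞) ^ N * hm J (cap J 1 1 (√(2 - ρ)))) := by gcongr
    _ = _ := by push_cast; ring

end ms

/-- The second covering of the unitary elements. -/
theorem cover_two [Nontrivial A] (h : JCAlg J) :
    ∃ T : Finset A, (∀ u ∈ T, u ∈ Un J) ∧
      (T.card : ℝ) ≤ 2 ^ (finrank ℂ J + 1) * (finrank ℂ J : ℝ) *
        Real.log (57 * (finrank ℂ J : ℝ)) ∧
      ∀ v ∈ Un J, ∃ u ∈ T, dist v u < √2 := by
  let _ : MeasurableSpace A := borel A
  have : BorelSpace A := ⟨rfl⟩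
  set N := finrank ℂ J with hN
  have hN0 : 0 < N := finrank_pos' h
  have hNr : (1 : ℝ) ≤ N := by exact_mod_cast hN0
  set ρ : ℝ := 1 / (3 * (N : ℝ)) with hρ
  have hρ0 : 0 < ρ := by rw [hρ]; positivity
  have hρ1 : ρ ≤ 1 := by
    rw [hρ, div_le_one (by positivity)]; linarith
  -- the net
  obtain ⟨R, hR, hRc, hRcov⟩ : ∃ R : Finset A, (∀ u ∈ R, u ∈ Un J) ∧ R.card ≤ (57 * N) ^ N ∧
      ∀ v ∈ Un J, ∃ u ∈ R, dist v u < ρ / 3 := by
    refine exists_net (Un J) (ρ / 3) ((57 * N) ^ N) ?_ (by positivity)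
    intro T hT hsep
    refine packing h hT (c := 1) (r := ρ / 6) ?_ ?_
    · intro u hu v hv huv
      rw [Set.disjoint_left]
      rintro w ⟨-, hw1⟩ ⟨-, hw2⟩
      have h1 := hsep u hu v hv huv
      rw [one_smul] at hw1 hw2
      rw [dist_eq_norm] at h1
      have e : u - v = (w - v) - (w - u) := by abel
      rw [e] at h1
      have := norm_sub_le (w - v) (w - u)
      linarith
    · refine hm_le_of_roots h subset_rfl (cap_subset _ _ _) (by positivity) ?_
      intro u hu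
      refine ⟨root_mem h hu _, ?_⟩
      rw [norm_sub_scalar_lt h hu _ _ (by positivity)]
      intro z hz
      refine (rt_small (by positivity)).trans_lt ?_
      push_cast
      rw [hρ]
      have hpi := Real.pi_lt_d2
      rw [div_div, div_lt_div_iff₀ (by positivity) (by positivity)]
      nlinarith
  set r : ℝ := √(2 - ρ) with hr
  have hab := hm_two h (ρ := ρ) (by rw [hρ, hN])
  set a : ℕ := 4 * 2 ^ N with ha
  have h2N : 1 ≤ 2 ^ N := Nat.one_le_two_pow
  have ha0 : (0 : ℝ) < a := by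
    have : 0 < a := by omega
    exact_mod_cast this
  set L : ℝ := (N : ℝ) * Real.log (57 * N) with hL
  have hlog : 1 ≤ Real.log (57 * N) := by
    rw [Real.le_log_iff_exp_le (by positivity)]
    have := Real.exp_one_lt_d9
    linarith
  have hL1 : 1 ≤ L := by
    rw [hL]; nlinarith
  set k : ℕ := ⌊L * (a / 3)⌋₊ + 1 with hk
  obtain ⟨T, hT, hTk, R', hR', hcov, hcard⟩ :=
    greedy h (a := a) (b := 3) (by norm_num) (by omega) hab R hR k
  have hkL : L * (a / 3) < k := by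
    rw [hk]
    push_cast
    exact Nat.lt_floor_add_one _
  have hR'0 : R' = ∅ := by
    by_contra hne
    have h1 : (1 : ℝ) ≤ R'.card := by
      have : 1 ≤ R'.card := Finset.card_pos.2 (Finset.nonempty_iff_ne_empty.2 hne)
      exact_mod_cast this
    have h2 : (1 - ((3 : ℕ) : ℝ) / a) ^ k ≤ Real.exp (-(3 / a * k)) := by
      have h3 : 1 - ((3 : ℕ) : ℝ) / a ≤ Real.exp (-(3 / a)) := by
        have := Real.add_one_le_exp (-(3 / (a : ℝ)))
        push_cast
        linarith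
      have h4 : 0 ≤ 1 - ((3 : ℕ) : ℝ) / a := by
        have : ((3 : ℕ) : ℝ) / a ≤ 1 := by
          rw [div_le_one ha0]
          exact_mod_cast (show 3 ≤ a by omega)
        linarith
      calc (1 - ((3 : ℕ) : ℝ) / a) ^ k ≤ Real.exp (-(3 / a)) ^ k := by gcongr
        _ = Real.exp (-(3 / a * k)) := by
          rw [← Real.exp_nat_mul]
          congr 1
          ring
    have h3 : (R.card : ℝ) ≤ Real.exp L := by
      have h4 : (R.card : ℝ) ≤ ((57 * N : ℕ) : ℝ) ^ N := by exact_mod_cast hRc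
      refine h4.trans (le_of_eq ?_)
      rw [hL, mul_comm (N : ℝ) (Real.log _), Real.exp_mul, Real.exp_log (by positivity),
        Real.rpow_natCast]
      push_cast
      rfl
    have h5 : L < 3 / a * k := by
      have : L = 3 / a * (L * (a / 3)) := by field_simp
      rw [this]
      gcongr
    have h6 : (1 - ((3 : ℕ) : ℝ) / a) ^ k * R.card < 1 := by
      calc (1 - ((3 : ℕ) : ℝ) / a) ^ k * R.card ≤ Real.exp (-(3 / a * k)) * Real.exp L := by
            gcongr
        _ = Real.exp (L - 3 / a * k) := by rw [← Real.exp_add]; congr 1; ring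
        _ < 1 := by
          rw [Real.exp_lt_one_iff]
          linarith
    linarith
  refine ⟨T, hT, ?_, ?_⟩
  · have h1 : (T.card : ℝ) ≤ k := by exact_mod_cast hTk
    have h2 : (k : ℝ) ≤ L * (a / 3) + 1 := by
      rw [hk]
      push_cast
      have : (⌊L * ((a : ℝ) / 3)⌋₊ : ℝ) ≤ L * (a / 3) := Nat.floor_le (by positivity)
      linarith
    have h3 : (a : ℝ) = 4 * 2 ^ N := by rw [ha]; push_cast; ring
    have h4 : (2 : ℝ) ≤ 2 ^ N := by
      calc (2 : ℝ) = 2 ^ 1 := by norm_num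
        _ ≤ 2 ^ N := by gcongr <;> [norm_num; exact hN0]
    have h5 : (2 : ℝ) ^ (N + 1) * N * Real.log (57 * N) = 2 * 2 ^ N * L := by
      rw [hL, pow_succ]; ring
    rw [h5]
    rw [h3] at h2
    have h6 : 1 ≤ 2 / 3 * 2 ^ N * L := by nlinarith
    nlinarith
  · intro v hv
    obtain ⟨m, hm, hvm⟩ := hRcov v hv
    rcases hcov m hm with h1 | ⟨t, ht, hmt⟩
    · rw [hR'0] at h1
      simp at h1
    · refine ⟨t, ht, ?_⟩
      have h2 : dist m t < r := by rwa [dist_eq_norm]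
      have h3 : dist v t < ρ / 3 + r := lt_of_le_of_lt (dist_triangle v m t) (by linarith)
      refine h3.trans_le ?_
      have h4 : r ≤ √2 - ρ / 3 := by
        have h5 : (√2 : ℝ) ^ 2 = 2 := Real.sq_sqrt (by norm_num)
        have h6 : (0 : ℝ) < √2 := Real.sqrt_pos.2 (by norm_num)
        have h7 : √2 ≤ (3 / 2 : ℝ) := by
          rw [Real.sqrt_le_left (by norm_num)]; norm_num
        have h8 : 1 ≤ (√2 : ℝ) := by
          rw [Real.one_le_sqrt]; norm_num
        rw [hr, Real.sqrt_le_left (by linarith)]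
        nlinarith
      linarith

end fd

end Pool.Agent.TH597.JC
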