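import Pool.Agent.TH597.JC.Basic

/-!
# Unitary elements of a JC*-algebra: roots, and the isometries `x ↦ w x w`
-/

set_option autoImplicit false

open Module

namespace Pool.Agent.TH597.JC

variable {A : Type*} [CStarAlgebra A] {J : Submodule ℂ A}

/-- The unitary elements of `J`. -/
def Un (J : Submodule ℂ A) : Set A := {u | u ∈ J ∧ u ∈ unitary A}

lemma Un.normal {u : A} (hu : u ∈ Un J) : IsStarNormal u :=
  isStarNormal_of_mem_unitary hu.2

lemma Un.one (h : JCAlg J) : (1 : A) ∈ Un J := ⟨h.one, one_mem _⟩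

lemma Un.star (h : JCAlg J) {u : A} (hu : u ∈ Un J) : star u ∈ Un J :=
  ⟨h.star _ hu.1, Unitary.star_mem hu.2⟩

lemma Un.star_mul {u : A} (hu : u ∈ Un J) : Star.star u * u = 1 := Unitary.star_mul_self_of_mem hu.2

lemma Un.mul_star {u : A} (hu : u ∈ Un J) : u * Star.star u = 1 := Unitary.mul_star_self_of_mem hu.2

lemma Un.sq (h : JCAlg J) {u : A} (hu : u ∈ Un J) : u ^ 2 ∈ Un J :=
  ⟨h.pow hu.1 2, pow_mem hu.2 2⟩

lemma Un.scalar {u : A} (hu : u ∈ Un J) {c : ℂ} (hc : ‖c‖ = 1) : c • u ∈ Un J := by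
  refine ⟨J.smul_mem c hu.1, ?_⟩
  have h1 : Star.star c * c = 1 := by
    have := Complex.normSq_eq_norm_sq c
    rw [hc] at this
    have h2 := Complex.normSq_eq_conj_mul_self (z := c)
    rw [this] at h2
    simpa using h2.symm
  have h2 : c * Star.star c = 1 := by rw [mul_comm]; exact h1
  rw [Unitary.mem_iff]
  constructor
  · rw [star_smul, smul_mul_smul_comm, h1, Un.star_mul hu, one_smul]
  · rw [star_smul, smul_mul_smul_comm, h2, Un.mul_star hu, one_smul]

lemma norm_sandwich {w : A} (hw : w ∈ unitary A) (x : A) : ‖w * x * w‖ = ‖x‖ := by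
  rw [CStarRing.norm_mul_mem_unitary (w * x) hw, CStarRing.norm_mem_unitary_mul x hw]

lemma Un.sandwich (h : JCAlg J) {w u : A} (hw : w ∈ Un J) (hu : u ∈ Un J) :
    w * u * w ∈ Un J :=
  ⟨h.triple hw.1 hu.1, mul_mem (mul_mem hw.2 hu.2) hw.2⟩

lemma sandwich_isometry {w : A} (hw : w ∈ unitary A) : Isometry (fun x : A => w * x * w) := by
  refine Isometry.of_dist_eq fun x y => ?_
  rw [dist_eq_norm, dist_eq_norm, ← norm_sandwich hw (x - y)]
  congr 1
  noncomm_ring

lemma norm_circle {u : A} (hu : u ∈ Un J) {z : ℂ} (hz : z ∈ spectrum ℂ u) : ‖z‖ = 1 := by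
  have := Unitary.spectrum_subset_circle (⟨u, hu.2⟩ : unitary A) hz
  simpa using this

lemma norm_sub_scalar_lt [Nontrivial A] [FiniteDimensional ℂ J] (h : JCAlg J) {u : A}
    (hu : u ∈ Un J) (f : ℂ → ℂ) (c : ℂ) {r : ℝ} (hr : 0 < r) :
    ‖cfc f u - c • (1 : A)‖ < r ↔ ∀ z ∈ spectrum ℂ u, ‖f z - c‖ < r := by
  have hn := Un.normal hu
  have hf := finite_spectrum h hu.1
  have e : cfc f u - c • (1 : A) = cfc (fun z => f z - c) u := by
    rw [cfc_sub f (fun _ => c) u (cont_of_finite hf _) (cont_of_finite hf _), cfc_const c u,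
      Algebra.algebraMap_eq_smul_one]
  rw [e]
  exact norm_cfc_lt_iff _ u hr (cont_of_finite hf _)

lemma norm_sub_scalar_lt' [Nontrivial A] [FiniteDimensional ℂ J] (h : JCAlg J) {u : A}
    (hu : u ∈ Un J) (c : ℂ) {r : ℝ} (hr : 0 < r) :
    ‖u - c • (1 : A)‖ < r ↔ ∀ z ∈ spectrum ℂ u, ‖z - c‖ < r := by
  have hn := Un.normal hu
  have := norm_sub_scalar_lt h hu (fun z => z) c hr
  rwa [cfc_id' ℂ u] at this

/-- The root function. -/
noncomputable def rt (k : ℕ) (z : ℂ) : ℂ := Complex.exp (((Complex.arg z / k : ℝ) : ℂ) * Complex.I)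

lemma rt_norm (k : ℕ) (z : ℂ) : ‖rt k z‖ = 1 := Complex.norm_exp_ofReal_mul_I _

lemma rt_pow {k : ℕ} (hk : k ≠ 0) {z : ℂ} (hz : ‖z‖ = 1) : rt k z ^ k = z := by
  have h1 : (k : ℂ) ≠ 0 := by exact_mod_cast hk
  have h2 : rt k z ^ k = Complex.exp ((Complex.arg z : ℂ) * Complex.I) := by
    rw [rt, ← Complex.exp_nat_mul]
    congr 1
    push_cast
    field_simp
  rw [h2]
  have := Complex.norm_mul_exp_arg_mul_I z
  rwa [hz, Complex.ofReal_one, one_mul] at this

lemma star_mul_of_norm {c : ℂ} (hc : ‖c‖ = 1) : star c * c = 1 := by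
  have := Complex.normSq_eq_norm_sq c
  rw [hc] at this
  have h2 := Complex.normSq_eq_conj_mul_self (z := c)
  rw [this] at h2
  simpa using h2.symm

lemma root_mem [Nontrivial A] [FiniteDimensional ℂ J] (h : JCAlg J) {u : A} (hu : u ∈ Un J)
    (k : ℕ) : cfc (rt k) u ∈ Un J := by
  have hn := Un.normal hu
  have hf := finite_spectrum h hu.1
  refine ⟨h.cfc_mem hu.1 hn hf _, ?_⟩
  rw [cfc_unitary_iff _ u hn (cont_of_finite hf _)]
  intro z _
  exact star_mul_of_norm (rt_norm k z)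

lemma root_pow [Nontrivial A] [FiniteDimensional ℂ J] (h : JCAlg J) {u : A} (hu : u ∈ Un J)
    {k : ℕ} (hk : k ≠ 0) : cfc (rt k) u ^ k = u := by
  have hn := Un.normal hu
  have hf := finite_spectrum h hu.1
  have e := cfc_pow (p := IsStarNormal) (rt k) k u (cont_of_finite hf _) hn
  have : cfc (fun z : ℂ => rt k z ^ k) u = cfc (fun z : ℂ => z) u := by
    refine cfc_congr fun z hz => ?_
    exact rt_pow hk (norm_circle hu hz)
  rw [← e, this, cfc_id' ℂ u]

/-- Transitivity: every unitary element of `J` is `w * 1 * w`. -/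
lemma exists_sqrt [Nontrivial A] [FiniteDimensional ℂ J] (h : JCAlg J) {u : A} (hu : u ∈ Un J) :
    ∃ w ∈ Un J, w * w = u := by
  refine ⟨cfc (rt 2) u, root_mem h hu 2, ?_⟩
  rw [← pow_two]
  exact root_pow h hu (by norm_num)

end Pool.Agent.TH597.JC
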